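import Pool.Agent.H49.G.R_pool_sql_team_seeded_b677cdb8.E8helper68.PJ.Eng2
import Pool.Agent.H49.G.R_seed8.TH823.EL.Arcs
import Pool.Agent.H49.G.R_seed8.TH823.PS.Corr
import Pool.Agent.H49.G.R_seed8.W93.LM4

set_option autoImplicit false

/-!
# The energy on a small set of frequencies
-/

open Finset MeasureTheory
open scoped Real
open Pool.Agent.Helper112

namespace Pool.Agent.E8helper68.PJ

open Pool.Agent.TH823.PS Pool.Agent.W66 Pool.Agent.W66L
open Pool.Agent.W93.LM (MajAt)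

/-- expansion in additive characters modulo `M` -/
lemma twist_le {M : ℕ} (hM : 0 < M) {ρ : ℝ} {α : ℕ → ℂ} (hα : Al M ρ α) (l : ℕ → ℂ) (Y : ℕ) (θ D : ℝ)
    (h : ∀ j ∈ range M, ‖∑ n ∈ Icc 1 Y, l n * ee (n * (θ + (j : ℝ) / M))‖ ≤ D) :
    ‖∑ n ∈ Icc 1 Y, l n * α n * ee (n * θ)‖ ≤ M * D := by
  have hMr : (0 : ℝ) < M := by exact_mod_cast hM
  have hMc : (M : ℂ) ≠ 0 := by exact_mod_cast hM.ne'
  have e1 : ∀ n : ℕ, (M : ℂ) * α n = ∑ c ∈ range M, ∑ j ∈ range M, α c * ee ((((n : ℤ) - c : ℤ) : ℝ) * ((j : ℝ) / M)) := by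
    intro n
    rw [sum_eq_single (n % M)]
    · rw [← mul_sum, orth' hM, if_pos, hα.per, mul_comm]
      have : ((n : ℤ) - ((n % M : ℕ) : ℤ)) = M * ((n / M : ℕ) : ℤ) := by
        have := Nat.mod_add_div n M
        have h2 : ((n % M : ℕ) : ℤ) + M * ((n / M : ℕ) : ℤ) = n := by exact_mod_cast this
        linarith
      rw [this]
      exact dvd_mul_right _ _
    · intro c hc hne
      rw [← mul_sum, orth' hM, if_neg, mul_zero]
      intro hd
      apply hne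
      have h1 : c ≡ n [MOD M] := by
        rw [← Int.natCast_modEq_iff]
        exact (Int.modEq_iff_dvd).2 hd
      have h2 : c % M = n % M := h1
      rw [Nat.mod_eq_of_lt (mem_range.1 hc)] at h2
      exact h2
    · intro h3
      exact absurd (mem_range.2 (Nat.mod_lt _ hM)) h3
  have e2 : (M : ℂ) * ∑ n ∈ Icc 1 Y, l n * α n * ee (n * θ) =
      ∑ c ∈ range M, ∑ j ∈ range M, (α c * ee (-((c : ℝ) * ((j : ℝ) / M)))) *
        ∑ n ∈ Icc 1 Y, l n * ee (n * (θ + (j : ℝ) / M)) := by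
    have e3 : ∀ c ∈ range M, ∀ j ∈ range M, (α c * ee (-((c : ℝ) * ((j : ℝ) / M)))) *
        ∑ n ∈ Icc 1 Y, l n * ee (n * (θ + (j : ℝ) / M)) =
        ∑ n ∈ Icc 1 Y, l n * ee (n * θ) * (α c * ee ((((n : ℤ) - c : ℤ) : ℝ) * ((j : ℝ) / M))) := by
      intro c _ j _
      rw [mul_sum]
      apply sum_congr rfl
      intro n _
      have e4 : ee (n * (θ + (j : ℝ) / M)) = ee (n * θ) * ee (n * ((j : ℝ) / M)) := by
        rw [ee_mul_add]; congr 1; ring
      have e5 : ee ((((n : ℤ) - c : ℤ) : ℝ) * ((j : ℝ) / M)) = ee (n * ((j : ℝ) / M)) * ee (-((c : ℝ) * ((j : ℝ) / M))) := by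
        rw [ee_mul_add]; congr 1; push_cast; ring
      rw [e4, e5]
      ring
    rw [sum_congr rfl fun c hc => sum_congr rfl fun j hj => e3 c hc j hj]
    rw [sum_congr rfl fun c _ => sum_comm, sum_comm, mul_sum]
    apply sum_congr rfl
    intro n _
    have e6 : (M : ℂ) * (l n * α n * ee (n * θ)) = l n * ee (n * θ) * ((M : ℂ) * α n) := by ring
    rw [e6, e1, mul_sum]
    apply sum_congr rfl
    intro c _
    rw [mul_sum]
  have e3 : (M : ℝ) * ‖∑ n ∈ Icc 1 Y, l n * α n * ee (n * θ)‖ ≤ M * (M * D) := by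
    have h1 : (M : ℝ) * ‖∑ n ∈ Icc 1 Y, l n * α n * ee (n * θ)‖ =
        ‖(M : ℂ) * ∑ n ∈ Icc 1 Y, l n * α n * ee (n * θ)‖ := by
      rw [norm_mul, Complex.norm_natCast]
    rw [h1, e2]
    calc _ ≤ ∑ c ∈ range M, ∑ j ∈ range M, D := by
          refine (norm_sum_le _ _).trans (sum_le_sum fun c _ => ?_)
          refine (norm_sum_le _ _).trans (sum_le_sum fun j hj => ?_)
          rw [norm_mul, norm_mul, ls_norm_ee, mul_one]
          refine le_trans ?_ (h j hj)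
          exact mul_le_of_le_one_left (norm_nonneg _) (hα.bd c)
      _ = M * (M * D) := by simp
  exact le_of_mul_le_mul_left e3 hMr

/-- a translate of a minor arc by a fraction with a small denominator -/
lemma maj_shift {M V R Y : ℕ} (hM : 0 < M) (hMV : M * V ≤ R) {θ : ℝ} (j : ℕ) {q : ℕ} {c : ℤ}
    (h : MajAt Y V (θ + (j : ℝ) / M) q c) : ∃ (q' : ℕ) (c' : ℤ), MajAt Y R θ q' c' := by
  obtain ⟨h1, h2, h3, h4⟩ := h
  have hMr : (0 : ℝ) < M := by exact_mod_cast hM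
  have hqr : (0 : ℝ) < q := by exact_mod_cast h1
  obtain ⟨r, hr0⟩ : ∃ r : ℚ, r = Rat.divInt (c * M - j * q : ℤ) (q * M : ℤ) := ⟨_, rfl⟩
  have hr : r = ((c * M - j * q : ℤ) : ℚ) / ((q * M : ℤ) : ℚ) := by rw [hr0, Rat.divInt_eq_div]
  have hden : (r.den : ℤ) ∣ (q * M : ℤ) := by rw [hr0]; exact Rat.den_dvd _ _
  have hden' : r.den ∣ q * M := by exact_mod_cast hden
  have hdenle : r.den ≤ q * M := Nat.le_of_dvd (Nat.mul_pos h1 hM) hden'
  have hqM : q * M ≤ R := (Nat.mul_le_mul_right M h3).trans ((mul_comm V M).le.trans hMV)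
  refine ⟨r.den, r.num, r.pos, ?_, hdenle.trans hqM, ?_⟩
  · exact Int.isCoprime_iff_gcd_eq_one.2 (by
      have := r.reduced
      rw [Int.gcd, Int.natAbs_natCast]
      exact this)
  · have e1 : ((r.num : ℤ) : ℝ) / r.den = (c : ℝ) / q - (j : ℝ) / M := by
      have h5 : ((r : ℚ) : ℝ) = ((r.num : ℤ) : ℝ) / r.den := by
        rw [Rat.cast_def]
      rw [← h5, hr]
      push_cast
      field_simp
    rw [e1]
    have e2 : θ - ((c : ℝ) / q - (j : ℝ) / M) = θ + (j : ℝ) / M - c / q := by ring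
    rw [e2]
    have h5 : (r.den : ℝ) ≤ q * M := by exact_mod_cast hdenle
    have h6 : 0 ≤ (Y : ℝ) * |θ + (j : ℝ) / M - c / q| := by positivity
    calc (r.den : ℝ) * (Y * |θ + (j : ℝ) / M - c / q|) ≤ q * M * (Y * |θ + (j : ℝ) / M - c / q|) :=
          mul_le_mul_of_nonneg_right h5 h6
      _ = M * (q * (Y * |θ + (j : ℝ) / M - c / q|)) := by ring
      _ ≤ M * V := mul_le_mul_of_nonneg_left h4 hMr.le
      _ ≤ R := by exact_mod_cast hMV

/-- **the sum over a set of frequencies** for a periodic restriction -/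
theorem arcsA {C : ℝ} {e : ℕ} {l : ℕ → ℂ} (hl : LF l) {M V R X Y z N : ℕ} (hM : 0 < M) (hMV : M * V ≤ R)
    {ρ : ℝ} {α : ℕ → ℂ} (hα : Al M ρ α) (hPP : Pool.Agent.W93.LM.PP l C e Y V)
    (hYX : Y ≤ X) (hz : 1 ≤ z) (hzX : z ≤ Y) (hXN : Y ≤ N) (hR : 1 ≤ R)
    {h : ℝ} (h0 : 0 < h) (h1 : h ≤ 1) (K : Finset ℕ) (hK : K ⊆ range X) :
    ∑ k ∈ K, ‖∑ n ∈ Icc 1 Y, l n * α n * ee (n * ((k : ℝ) / X))‖ ^ 2 ≤
      K.card * (M * (C * Real.log Y ^ e * Y / √(V : ℝ))) ^ 2 +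
      2 * K.card * (z + 4 + 18 * h * Y + 4 * π * h * R * Y) ^ 2 +
      2 * (X * ∫ x in Set.Iic (Real.log Y), Real.exp x * EE h R (Ioc z N) (fun n => l n * α n / n) x) := by
  classical
  refine Pool.Agent.TH823.EL.arcs_m (f := fun n => l n * α n) (fun n => ?_) hYX hz hzX hXN hR h0 h1 K hK ?_
  · rw [norm_mul]
    exact mul_le_one₀ (hl.bd n) (norm_nonneg _) (hα.bd n)
  · have hlog : 0 ≤ Real.log Y := Real.log_natCast_nonneg Y
    have h2 : ∀ k ∈ K.filter (fun k : ℕ => ¬ ∃ (q : ℕ) (c : ℤ), MajAt Y R ((k : ℝ) / X) q c),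
        ‖∑ n ∈ Icc 1 Y, l n * α n * ee (n * ((k : ℝ) / X))‖ ^ 2 ≤ (M * (C * Real.log Y ^ e * Y / √(V : ℝ))) ^ 2 := by
      intro k hk
      rw [mem_filter] at hk
      apply pow_le_pow_left₀ (norm_nonneg _)
      apply twist_le hM hα
      intro j _
      have h3 := (hPP ((k : ℝ) / X + (j : ℝ) / M)).2 (fun ⟨q, c, hqc⟩ => hk.2 (maj_shift hM hMV j hqc))
      simp only [ee_eq] at h3
      exact h3
    refine (sum_le_sum h2).trans ?_
    rw [sum_const, nsmul_eq_mul]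
    apply mul_le_mul_of_nonneg_right _ (by positivity)
    exact_mod_cast card_filter_le _ _

end Pool.Agent.E8helper68.PJ
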