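import Pool.Agent.H49.G.R_pool_sql_team_seeded_b677cdb8.E8helper68.PJ.TKl
import Pool.Agent.H49.G.R_seed8.TH823.EL.Win
import Pool.Agent.H49.G.R_seed8.TH823.PS.Major

set_option autoImplicit false

/-!
# The energies of the dilates of a periodic restriction of a completely multiplicative function
-/

open Finset MeasureTheory
open scoped Real
open Pool.Agent.Helper112

namespace Pool.Agent.E8helper68.PJ

open Pool.Agent.TH823.PS Pool.Agent.W66 Pool.Agent.W66L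

/-- `l (p n) = - l n` for all primes `p` -/
structure LF (l : ℕ → ℂ) : Prop where
  bd : ∀ n, ‖l n‖ ≤ 1
  mul : ∀ p n : ℕ, p.Prime → l (p * n) = -l n

/-- the dilate of the restriction -/
noncomputable def FF (l α : ℕ → ℂ) (a n : ℕ) : ℂ := l n * α (a * n)

lemma perm_rr' {q p : ℕ} (hq : 0 < q) (hp : p.Coprime q) {A : Type*} [AddCommMonoid A] (F : ℕ → A)
    (hF : ∀ m, F (m % q) = F m) :
    ∑ a ∈ rr q, F (p * a) = ∑ a ∈ rr q, F a := by
  have hmaps : ∀ a ∈ rr q, (p * a) % q ∈ rr q := by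
    intro a ha
    rw [mem_rr] at ha ⊢
    refine ⟨Nat.mod_lt _ hq, ?_⟩
    have h1 : (p * a).Coprime q := Nat.Coprime.mul_left hp ha.2
    unfold Nat.Coprime at h1 ⊢
    rw [Nat.gcd_comm, Nat.gcd_rec] at h1
    exact h1
  have hinj : Set.InjOn (fun a => (p * a) % q) (rr q : Set ℕ) := by
    intro a ha b hb hab
    rw [mem_coe, mem_rr] at ha hb
    have h1 : p * a ≡ p * b [MOD q] := hab
    have h2 : a ≡ b [MOD q] := Nat.ModEq.cancel_left_of_coprime (by rw [Nat.gcd_comm]; exact hp) h1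
    exact Nat.ModEq.eq_of_lt_of_lt h2 ha.1 hb.1
  have hsurj : Set.SurjOn (fun a => (p * a) % q) (rr q : Set ℕ) (rr q : Set ℕ) :=
    Finset.surjOn_of_injOn_of_card_le _ (fun a ha => hmaps a ha) hinj le_rfl
  refine sum_nbij (fun a => (p * a) % q) hmaps hinj hsurj ?_
  intro a _
  exact (hF _).symm

lemma perm_range {q a : ℕ} (hq : 0 < q) (ha : a.Coprime q) {A : Type*} [AddCommMonoid A] (F : ℕ → A)
    (hF : ∀ m, F (m % q) = F m) :
    ∑ c ∈ range q, F (a * c) = ∑ c ∈ range q, F c := by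
  have hmaps : ∀ c ∈ range q, (a * c) % q ∈ range q := fun c _ => mem_range.2 (Nat.mod_lt _ hq)
  have hinj : Set.InjOn (fun c => (a * c) % q) (range q : Set ℕ) := by
    intro c hc d hd hcd
    rw [mem_coe, mem_range] at hc hd
    have h1 : a * c ≡ a * d [MOD q] := hcd
    have h2 : c ≡ d [MOD q] := Nat.ModEq.cancel_left_of_coprime (by rw [Nat.gcd_comm]; exact ha) h1
    exact Nat.ModEq.eq_of_lt_of_lt h2 hc hd
  have hsurj : Set.SurjOn (fun c => (a * c) % q) (range q : Set ℕ) (range q : Set ℕ) :=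
    Finset.surjOn_of_injOn_of_card_le _ (fun a ha => hmaps a ha) hinj le_rfl
  refine sum_nbij (fun c => (a * c) % q) hmaps hinj hsurj ?_
  intro c _
  exact (hF _).symm

/-- a periodic function with mean square `ρ` -/
structure Al (M : ℕ) (ρ : ℝ) (α : ℕ → ℂ) : Prop where
  per : ∀ n, α (n % M) = α n
  bd : ∀ n, ‖α n‖ ≤ 1
  mean : ∑ c ∈ range M, ‖α c‖ ^ 2 = ρ * M

lemma Al.wt {M : ℕ} {ρ : ℝ} {α : ℕ → ℂ} (h : Al M ρ α) (hM : 0 < M) {a : ℕ} (ha : a.Coprime M) :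
    Wt M ρ (fun n => ‖α (a * n)‖ ^ 2) := by
  refine ⟨fun n => by positivity, fun n => ?_, ?_⟩
  · have : α (a * (n % M)) = α (a * n) := by
      rw [← h.per (a * (n % M)), Nat.mul_mod_mod, h.per]
    simp only [this]
  · rw [← h.mean]
    exact perm_range hM ha (fun c => ‖α c‖ ^ 2) (fun m => by simp only [h.per])

lemma FF_norm_sq {l α : ℕ → ℂ} (hl : LF l) (a n : ℕ) : ‖FF l α a n‖ ^ 2 ≤ ‖α (a * n)‖ ^ 2 := by
  unfold FF
  rw [norm_mul, mul_pow]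
  apply mul_le_of_le_one_left (by positivity)
  exact pow_le_one₀ (norm_nonneg _) (hl.bd n)

/-- the components -/
noncomputable def GG {M : ℕ} (l α : ℕ → ℂ) (χ : DirichletCharacter ℂ M) (n : ℕ) : ℂ :=
  ∑ a ∈ rr M, (starRingEnd ℂ) (χ (a : ZMod M)) * FF l α a n

lemma chi_conj {M : ℕ} (χ : DirichletCharacter ℂ M) {p : ℕ} (hp : p.Coprime M) :
    χ (p : ZMod M) * (starRingEnd ℂ) (χ (p : ZMod M)) = 1 := by
  have hpu : ‖χ (p : ZMod M)‖ = 1 := by
    obtain ⟨u, hu⟩ := (ZMod.isUnit_iff_coprime p M).2 hp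
    rw [← hu]
    exact χ.unit_norm_eq_one u
  rw [Complex.mul_conj', hpu]; norm_num

lemma GG_mul {M : ℕ} (hM : 0 < M) {ρ : ℝ} {l α : ℕ → ℂ} (hl : LF l) (hα : Al M ρ α) (χ : DirichletCharacter ℂ M)
    {p : ℕ} (hp : p.Prime) (hpM : p.Coprime M) (n : ℕ) :
    GG l α χ (p * n) = -(χ (p : ZMod M)) * GG l α χ n := by
  unfold GG FF
  have h1 := perm_rr' hM hpM (fun b => (starRingEnd ℂ) (χ (b : ZMod M)) * α (b * n)) (fun m => by
    change (starRingEnd ℂ) (χ ((m % M : ℕ) : ZMod M)) * α (m % M * n) = (starRingEnd ℂ) (χ (m : ZMod M)) * α (m * n)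
    rw [ZMod.natCast_mod, ← hα.per (m % M * n), Nat.mod_mul_mod, hα.per])
  calc ∑ a ∈ rr M, (starRingEnd ℂ) (χ (a : ZMod M)) * (l (p * n) * α (a * (p * n)))
      = -(χ (p : ZMod M)) * l n * ∑ a ∈ rr M, (starRingEnd ℂ) (χ ((p * a : ℕ) : ZMod M)) * α (p * a * n) := by
        rw [mul_sum]
        apply sum_congr rfl
        intro a _
        rw [hl.mul p n hp]
        push_cast
        rw [map_mul, map_mul]
        have e : a * (p * n) = p * a * n := by ring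
        rw [e]
        linear_combination (-(starRingEnd ℂ) (χ (a : ZMod M)) * l n * α (p * a * n)) * (-(chi_conj χ hpM))
    _ = -(χ (p : ZMod M)) * l n * ∑ a ∈ rr M, (starRingEnd ℂ) (χ (a : ZMod M)) * α (a * n) := by rw [h1]
    _ = _ := by
        rw [mul_sum, mul_sum]
        apply sum_congr rfl
        intro a _
        ring

/-- the coefficients after the multiplier -/
lemma gco_GG {M : ℕ} (hM : 0 < M) {ρ : ℝ} {l α : ℕ → ℂ} (hl : LF l) (hα : Al M ρ α) (χ : DirichletCharacter ℂ M)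
    {P S : Finset ℕ} (hP : ∀ p ∈ P, p.Prime ∧ p.Coprime M) {k : ℕ} (hk : 0 < k) :
    gco (WP P) P (fun p => -(χ (p : ZMod M)) / p) S (fun n => GG l α χ n / n) k =
      (Dl P S k : ℂ) * (GG l α χ k / k) := by
  unfold gco Dl
  have hkc : (k : ℂ) ≠ 0 := by exact_mod_cast hk.ne'
  push_cast
  rw [sub_mul, sum_mul]
  congr 1
  · split_ifs <;> simp
  · apply sum_congr rfl
    intro p hp
    split_ifs with h
    · obtain ⟨m, rfl⟩ := h.1
      have hp0 := (hP p hp).1.pos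
      rw [Nat.mul_div_cancel_left _ hp0, GG_mul hM hl hα χ (hP p hp).1 (hP p hp).2]
      have hp1 : (p : ℂ) ≠ 0 := by exact_mod_cast hp0.ne'
      have hm1 : (m : ℂ) ≠ 0 := by
        have : m ≠ 0 := by rintro rfl; simp at hk
        exact_mod_cast this
      push_cast
      field_simp
    · simp

lemma ggC_lin {M : ℕ} (l α : ℕ → ℂ) (χ : DirichletCharacter ℂ M) (h : ℝ) (S : Finset ℕ) (e : ℕ → ℂ) (x : ℝ) :
    ggC h S (fun n => GG l α χ n / n * e n) x =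
      ∑ a ∈ rr M, (starRingEnd ℂ) (χ (a : ZMod M)) * ggC h S (fun n => FF l α a n / n * e n) x := by
  unfold ggC GG
  simp only [mul_sum, sum_mul, sum_div]
  rw [sum_comm]
  apply sum_congr rfl
  intro a _
  apply sum_congr rfl
  intro n _
  ring

/-- Parseval for the energies -/
lemma EE_pars {M : ℕ} [NeZero M] (l α : ℕ → ℂ) (h : ℝ) (F : ℕ) (S : Finset ℕ) (x : ℝ) :
    ∑ χ : DirichletCharacter ℂ M, EE h F S (fun n => GG l α χ n / n) x =
      M.totient * ∑ a ∈ rr M, EE h F S (fun n => FF l α a n / n) x := by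
  unfold EE
  calc ∑ χ : DirichletCharacter ℂ M, ∑ q ∈ Icc 1 F, ∑ b ∈ rr q,
        ‖ggC h S (fun n => GG l α χ n / n * ee (n * b / q)) x‖ ^ 2
      = ∑ q ∈ Icc 1 F, ∑ b ∈ rr q, ∑ χ : DirichletCharacter ℂ M,
        ‖ggC h S (fun n => GG l α χ n / n * ee (n * b / q)) x‖ ^ 2 := by
        rw [sum_comm]
        apply sum_congr rfl
        intro q _
        rw [sum_comm]
    _ = ∑ q ∈ Icc 1 F, ∑ b ∈ rr q, (M.totient : ℝ) * ∑ a ∈ rr M,
        ‖ggC h S (fun n => FF l α a n / n * ee (n * b / q)) x‖ ^ 2 := by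
        apply sum_congr rfl
        intro q _
        apply sum_congr rfl
        intro b _
        rw [← pars]
        apply sum_congr rfl
        intro χ _
        rw [ggC_lin]
    _ = M.totient * ∑ q ∈ Icc 1 F, ∑ b ∈ rr q, ∑ a ∈ rr M,
        ‖ggC h S (fun n => FF l α a n / n * ee (n * b / q)) x‖ ^ 2 := by
        simp only [mul_sum]
    _ = _ := by
        congr 1
        rw [sum_comm (s := rr M)]
        apply sum_congr rfl
        intro q _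
        rw [sum_comm]

lemma GG_sq {M : ℕ} [NeZero M] {l α : ℕ → ℂ} (hl : LF l) (n : ℕ) :
    ∑ χ : DirichletCharacter ℂ M, ‖GG l α χ n‖ ^ 2 ≤ M.totient * ∑ a ∈ rr M, ‖α (a * n)‖ ^ 2 := by
  unfold GG
  rw [pars (q := M) (fun a => FF l α a n)]
  apply mul_le_mul_of_nonneg_left _ (Nat.cast_nonneg _)
  exact sum_le_sum fun a _ => FF_norm_sq hl a n

/-- **the energies of the dilates** -/
theorem fam_energy {M : ℕ} [NeZero M] {ρ : ℝ} {l α : ℕ → ℂ} (hl : LF l) (hα : Al M ρ α)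
    {F : ℕ} {P S K : Finset ℕ} (hP : ∀ p ∈ P, p.Prime ∧ F < p ∧ p.Coprime M) (hS : ∀ s ∈ S, 0 < s) (hSK : ∀ s ∈ S, s ∈ K)
    (hK : ∀ s ∈ K, 0 < s)
    (hPK : ∀ s ∈ S, ∀ p ∈ P, p * s ∈ K) {h κ Ξ : ℝ} (h0 : 0 < h) (h1 : h ≤ 1) (hκ : 0 < κ) (hΞ : 0 < Ξ)
    (hm : ∀ χ : DirichletCharacter ℂ M, ∀ (q : ℕ) [NeZero q], q ≤ F → ∀ χ' : DirichletCharacter ℂ q, ∀ ξ : ℝ, |ξ| ≤ Ξ →
      κ ≤ ‖mult (WP P) P (fun p => -(χ (p : ZMod M)) * χ' (p : ZMod q) / p) ξ‖) :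
    ∑ a ∈ rr M, ∫ x, EE h F S (fun n => FF l α a n / n) x ≤
      (1 / κ) ^ 2 * (∑ a ∈ rr M, ∑ n ∈ K, 6 * (15 * n + (1 + (F : ℝ) ^ 2) / h) *
        (‖α (a * n)‖ ^ 2 * Dl P S n ^ 2 / (n : ℝ) ^ 2)) +
      (1 / (h * Ξ)) ^ 2 * (∑ a ∈ rr M, ∑ n ∈ S, 6 * (15 * n + (1 + (F : ℝ) ^ 2) / h) *
        (‖α (a * n)‖ ^ 2 / (n : ℝ) ^ 2)) := by
  have hM : 0 < M := Nat.pos_of_ne_zero (NeZero.ne M)
  have hφ : (0 : ℝ) < M.totient := by exact_mod_cast Nat.totient_pos.2 hM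
  have key : ∀ χ : DirichletCharacter ℂ M, ∫ x, EE h F S (fun n => GG l α χ n / n) x ≤
      (1 / κ) ^ 2 * (∑ n ∈ K, 6 * (15 * n + (1 + (F : ℝ) ^ 2) / h) * (‖GG l α χ n‖ ^ 2 * (Dl P S n ^ 2 / (n : ℝ) ^ 2))) +
      (1 / (h * Ξ)) ^ 2 * (∑ n ∈ S, 6 * (15 * n + (1 + (F : ℝ) ^ 2) / h) * (‖GG l α χ n‖ ^ 2 * (1 / (n : ℝ) ^ 2))) := by
    intro χ
    have h2 := Pool.Agent.TH823.EL.energy_mult (F := F) (W := WP P) (P := P) (S := S) (K := K)
      (fun p => -(χ (p : ZMod M))) (fun n => GG l α χ n / n) (fun p hp => ⟨(hP p hp).1, (hP p hp).2.1⟩) hS hSK hK hPK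
      h0 h1 hκ hΞ (hm χ)
    refine h2.trans (le_of_eq ?_)
    congr 2
    · apply sum_congr rfl
      intro n hn
      rw [gco_GG hM hl hα χ (fun p hp => ⟨(hP p hp).1, (hP p hp).2.2⟩) (hK n hn), norm_mul, norm_div,
        Complex.norm_natCast, Complex.norm_real, mul_pow, div_pow, Real.norm_eq_abs, sq_abs]
      ring
    · apply sum_congr rfl
      intro n _
      rw [norm_div, Complex.norm_natCast, div_pow]
      ring
  have e1 : ∑ χ : DirichletCharacter ℂ M, ∫ x, EE h F S (fun n => GG l α χ n / n) x =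
      M.totient * ∑ a ∈ rr M, ∫ x, EE h F S (fun n => FF l α a n / n) x := by
    rw [← integral_finsetSum _ fun χ _ => EE_int h0 F S _, ← integral_finsetSum _ fun a _ => EE_int h0 F S _,
      ← integral_const_mul]
    congr 1
    ext x
    exact EE_pars l α h F S x
  have hsum : ∀ (T : Finset ℕ) (u v : ℕ → ℝ), (∀ n, 0 ≤ u n) → (∀ n, 0 ≤ v n) →
      ∑ χ : DirichletCharacter ℂ M, ∑ n ∈ T, u n * (‖GG l α χ n‖ ^ 2 * v n) ≤
      M.totient * ∑ a ∈ rr M, ∑ n ∈ T, u n * (‖α (a * n)‖ ^ 2 * v n) := by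
    intro T u v hu hv
    rw [sum_comm, sum_comm (s := rr M), mul_sum]
    apply sum_le_sum
    intro n _
    have h3 := mul_le_mul_of_nonneg_left (GG_sq (M := M) (α := α) hl n) (mul_nonneg (hu n) (hv n))
    calc ∑ χ : DirichletCharacter ℂ M, u n * (‖GG l α χ n‖ ^ 2 * v n) =
        u n * v n * ∑ χ : DirichletCharacter ℂ M, ‖GG l α χ n‖ ^ 2 := by
          rw [mul_sum]; exact sum_congr rfl fun _ _ => by ring
      _ ≤ _ := h3
      _ = _ := by
          rw [mul_sum, mul_sum, mul_sum]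
          exact sum_congr rfl fun _ _ => by ring
  have hcn : ∀ n : ℕ, 0 ≤ 6 * (15 * (n : ℝ) + (1 + (F : ℝ) ^ 2) / h) := fun n => by positivity
  have h3 := sum_le_sum fun χ (_ : χ ∈ (univ : Finset (DirichletCharacter ℂ M))) => key χ
  rw [e1, sum_add_distrib, ← mul_sum, ← mul_sum] at h3
  have h4 := mul_le_mul_of_nonneg_left (hsum K (fun n => 6 * (15 * (n : ℝ) + (1 + (F : ℝ) ^ 2) / h))
    (fun n => Dl P S n ^ 2 / (n : ℝ) ^ 2) hcn (fun n => by positivity)) (by positivity : 0 ≤ (1 / κ) ^ 2)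
  have h5 := mul_le_mul_of_nonneg_left (hsum S (fun n => 6 * (15 * (n : ℝ) + (1 + (F : ℝ) ^ 2) / h))
    (fun n => 1 / (n : ℝ) ^ 2) hcn (fun n => by positivity)) (by positivity : 0 ≤ (1 / (h * Ξ)) ^ 2)
  have h6 : (M.totient : ℝ) * ∑ a ∈ rr M, ∫ x, EE h F S (fun n => FF l α a n / n) x ≤
      M.totient * ((1 / κ) ^ 2 * (∑ a ∈ rr M, ∑ n ∈ K, 6 * (15 * n + (1 + (F : ℝ) ^ 2) / h) *
        (‖α (a * n)‖ ^ 2 * Dl P S n ^ 2 / (n : ℝ) ^ 2)) +
      (1 / (h * Ξ)) ^ 2 * (∑ a ∈ rr M, ∑ n ∈ S, 6 * (15 * n + (1 + (F : ℝ) ^ 2) / h) *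
        (‖α (a * n)‖ ^ 2 / (n : ℝ) ^ 2))) := by
    refine h3.trans ((add_le_add h4 h5).trans (le_of_eq ?_))
    have e2 : ∀ a n : ℕ, ‖α (a * n)‖ ^ 2 * (Dl P S n ^ 2 / (n : ℝ) ^ 2) = ‖α (a * n)‖ ^ 2 * Dl P S n ^ 2 / (n : ℝ) ^ 2 :=
      fun a n => by ring
    have e3 : ∀ a n : ℕ, ‖α (a * n)‖ ^ 2 * (1 / (n : ℝ) ^ 2) = ‖α (a * n)‖ ^ 2 / (n : ℝ) ^ 2 :=
      fun a n => by ring
    simp only [e2, e3]
    ring
  exact le_of_mul_le_mul_left h6 hφ

end Pool.Agent.E8helper68.PJ
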