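import Pool.Agent.H49.G.R_seed8.TH823.PS.Corr

set_option autoImplicit false

/-!
# Correlations with a weight whose convolution with a set is square integrable
-/

open Finset
open scoped Real
open Pool.Agent.Helper112

namespace Pool.Agent.E8helper68.PJ

open Pool.Agent.TH823.PS

/-- the trilinear identity -/
lemma tri {N H : ℕ} (hN : 0 < N) {E : Finset ℕ} (hE : E ⊆ Icc 1 H) (f g c : ℕ → ℂ) :
    ((N + H : ℕ) : ℂ) * ∑ h ∈ E, c h * ∑ n ∈ Icc 1 N, g n * f (n + h) =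
      ∑ k ∈ range (N + H), (∑ m ∈ Icc 1 (N + H), f m * ee (m * ((k : ℝ) / (N + H : ℕ)))) *
        (∑ n ∈ Icc 1 N, g n * ee (-(n * ((k : ℝ) / (N + H : ℕ))))) *
        (∑ h ∈ E, c h * ee (-(h * ((k : ℝ) / (N + H : ℕ))))) := by
  classical
  set X := N + H with hX
  have hX0 : 0 < X := by omega
  have e1 : ∀ k ∈ range X, (∑ m ∈ Icc 1 X, f m * ee (m * ((k : ℝ) / X))) *
        (∑ n ∈ Icc 1 N, g n * ee (-(n * ((k : ℝ) / X)))) *
        (∑ h ∈ E, c h * ee (-(h * ((k : ℝ) / X)))) =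
      ∑ h ∈ E, ∑ n ∈ Icc 1 N, ∑ m ∈ Icc 1 X, (c h * g n * f m) *
        ee ((((m : ℤ) - n - h : ℤ) : ℝ) * ((k : ℝ) / X)) := by
    intro k _
    rw [mul_comm, sum_mul]
    apply sum_congr rfl
    intro h _
    rw [mul_comm (∑ m ∈ Icc 1 X, f m * ee (m * ((k : ℝ) / X))), sum_mul, mul_sum]
    apply sum_congr rfl
    intro n _
    rw [mul_sum, mul_sum]
    apply sum_congr rfl
    intro m _
    have : ee ((((m : ℤ) - n - h : ℤ) : ℝ) * ((k : ℝ) / X)) =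
        ee (m * ((k : ℝ) / X)) * ee (-(n * ((k : ℝ) / X))) * ee (-(h * ((k : ℝ) / X))) := by
      rw [ee_mul_add, ee_mul_add]
      congr 1
      push_cast; ring
    rw [this]
    ring
  rw [sum_congr rfl e1, sum_comm, mul_sum]
  apply sum_congr rfl
  intro h hh
  rw [sum_comm, mul_sum, mul_sum]
  apply sum_congr rfl
  intro n hn
  have hh' := mem_Icc.1 (hE hh)
  have hn' := mem_Icc.1 hn
  rw [sum_comm, sum_eq_single (n + h)]
  · rw [← mul_sum, orth' hX0, if_pos (by simp)]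
    ring
  · intro m hm hmn
    have hm' := mem_Icc.1 hm
    rw [← mul_sum, orth' hX0, if_neg, mul_zero]
    intro hd
    have h5 : |(m : ℤ) - n - h| < X := by rw [abs_lt]; constructor <;> omega
    have h6 := Int.eq_zero_of_abs_lt_dvd hd h5
    omega
  · intro h2
    exact absurd (mem_Icc.2 (by omega)) h2

lemma conjv (X : ℕ) (A : Finset ℕ) (a : ℕ → ℂ) (k : ℕ) :
    ‖∑ n ∈ A, a n * ee (-(n * ((k : ℝ) / X)))‖ =
      ‖∑ n ∈ A, (starRingEnd ℂ) (a n) * ee (n * ((k : ℝ) / X))‖ := by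
  rw [← RCLike.norm_conj (∑ n ∈ A, a n * ee (-(n * ((k : ℝ) / X)))), map_sum]
  congr 1
  apply sum_congr rfl
  intro n _
  rw [map_mul, conj_ee, neg_neg]

lemma pars_neg {X : ℕ} (hX : 0 < X) {A : Finset ℕ} (hA : A ⊆ Icc 1 X) (a : ℕ → ℂ) :
    ∑ k ∈ range X, ‖∑ m ∈ A, a m * ee (-(m * ((k : ℝ) / X)))‖ ^ 2 = X * ∑ m ∈ A, ‖a m‖ ^ 2 := by
  have h1 : ∑ k ∈ range X, ‖∑ m ∈ A, a m * ee (-(m * ((k : ℝ) / X)))‖ ^ 2 =
      ∑ k ∈ range X, ‖∑ m ∈ A, (starRingEnd ℂ) (a m) * ee (m * ((k : ℝ) / X))‖ ^ 2 :=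
    sum_congr rfl fun k _ => by rw [conjv]
  rw [h1, parseval hX hA]
  simp only [RCLike.norm_conj]

/-- the mean square of the convolution -/
lemma conv_l2 {N H : ℕ} (hN : 0 < N) {E : Finset ℕ} (hE : E ⊆ Icc 1 H) (g c : ℕ → ℂ) (v : ℤ → ℝ)
    (hv0 : ∀ n, 0 ≤ v n) (hg : ∀ n ∈ Icc 1 N, ‖g n‖ ≤ v n) (hc : ∀ h ∈ E, ‖c h‖ ≤ 1) :
    ∑ k ∈ range (N + H), ‖(∑ n ∈ Icc 1 N, g n * ee (-(n * ((k : ℝ) / (N + H : ℕ))))) *
        (∑ h ∈ E, c h * ee (-(h * ((k : ℝ) / (N + H : ℕ)))))‖ ^ 2 ≤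
      ((N + H : ℕ) : ℝ) * ∑ h ∈ E, ∑ h' ∈ E, ∑ n ∈ Ioc 0 (N : ℤ), v n * v (n + ((h : ℤ) - h')) := by
  classical
  set X := N + H with hX
  have hX0 : 0 < X := by omega
  set P : Finset (ℕ × ℕ) := E ×ˢ Icc 1 N with hP
  set G : ℕ × ℕ → ℂ := fun p => c p.1 * g p.2 with hG
  set s : ℕ × ℕ → ℕ := fun p => p.2 + p.1 with hs
  have hmem : ∀ p ∈ P, s p ∈ Icc 1 X := by
    intro p hp
    rw [hP, mem_product] at hp
    have h1 := mem_Icc.1 (hE hp.1)
    have h2 := mem_Icc.1 hp.2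
    rw [mem_Icc, hs]
    simp only
    omega
  set Φ : ℕ → ℂ := fun m => ∑ p ∈ P.filter (fun p => s p = m), G p with hΦ
  have e1 : ∀ k : ℕ, (∑ n ∈ Icc 1 N, g n * ee (-(n * ((k : ℝ) / X)))) * (∑ h ∈ E, c h * ee (-(h * ((k : ℝ) / X)))) =
      ∑ m ∈ Icc 1 X, Φ m * ee (-(m * ((k : ℝ) / X))) := by
    intro k
    have h1 : ∑ m ∈ Icc 1 X, Φ m * ee (-(m * ((k : ℝ) / X))) = ∑ p ∈ P, G p * ee (-(s p * ((k : ℝ) / X))) := by
      rw [← sum_fiberwise_of_maps_to hmem]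
      apply sum_congr rfl
      intro m _
      rw [hΦ]
      simp only
      rw [sum_mul]
      apply sum_congr rfl
      intro p hp
      rw [mem_filter] at hp
      rw [hp.2]
    rw [h1, hP, sum_product, sum_comm, sum_mul_sum]
    apply sum_congr rfl
    intro n _
    apply sum_congr rfl
    intro h _
    rw [hG, hs]
    simp only
    have : ee (-(((n + h : ℕ) : ℝ) * ((k : ℝ) / X))) = ee (-(n * ((k : ℝ) / X))) * ee (-(h * ((k : ℝ) / X))) := by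
      rw [ee_mul_add]
      congr 1
      push_cast; ring
    rw [this]
    ring
  simp only [e1]
  rw [pars_neg hX0 Subset.rfl]
  apply mul_le_mul_of_nonneg_left _ (Nat.cast_nonneg _)
  have h1 : ∀ m ∈ Icc 1 X, ‖Φ m‖ ^ 2 ≤ ∑ p ∈ P.filter (fun p => s p = m), ∑ p' ∈ P.filter (fun p' => s p' = s p),
      ‖g p.2‖ * ‖g p'.2‖ := by
    intro m _
    have h2 : ‖Φ m‖ ≤ ∑ p ∈ P.filter (fun p => s p = m), ‖g p.2‖ := by
      refine (norm_sum_le _ _).trans (sum_le_sum fun p hp => ?_)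
      rw [mem_filter, hP, mem_product] at hp
      rw [hG]
      simp only
      rw [norm_mul]
      exact mul_le_of_le_one_left (norm_nonneg _) (hc _ hp.1.1)
    have h3 := pow_le_pow_left₀ (norm_nonneg _) h2 2
    refine h3.trans (le_of_eq ?_)
    rw [sq, sum_mul_sum]
    apply sum_congr rfl
    intro p hp
    rw [mem_filter] at hp
    rw [hp.2]
  refine (sum_le_sum h1).trans ?_
  rw [sum_fiberwise_of_maps_to hmem (fun p => ∑ p' ∈ P.filter (fun p' => s p' = s p), ‖g p.2‖ * ‖g p'.2‖)]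
  rw [hP, sum_product]
  apply sum_le_sum
  intro h hh
  have h2 : ∀ n ∈ Icc 1 N, ∑ p' ∈ (E ×ˢ Icc 1 N).filter (fun p' => s p' = s (h, n)), ‖g n‖ * ‖g p'.2‖ ≤
      ∑ h' ∈ E, v n * v (n + ((h : ℤ) - h')) := by
    intro n hn
    rw [sum_filter, sum_product]
    apply sum_le_sum
    intro h' _
    have hs' : ∀ n' : ℕ, (s (h', n') = s (h, n)) ↔ ((n' : ℤ) = n + ((h : ℤ) - h')) := by
      intro n'
      rw [hs]
      simp only
      constructor
      · intro h3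
        have : ((n' + h' : ℕ) : ℤ) = ((n + h : ℕ) : ℤ) := by rw [h3]
        push_cast at this
        linarith
      · intro h3
        have : ((n' + h' : ℕ) : ℤ) = ((n + h : ℕ) : ℤ) := by push_cast; linarith
        exact_mod_cast this
    by_cases hex : ∃ n₀ ∈ Icc 1 N, (n₀ : ℤ) = n + ((h : ℤ) - h')
    · obtain ⟨n₀, hn₀, he⟩ := hex
      rw [sum_eq_single n₀]
      · rw [if_pos ((hs' n₀).2 he), ← he]
        exact mul_le_mul (hg n hn) (hg n₀ hn₀) (norm_nonneg _) (hv0 _)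
      · intro n' _ hne
        rw [if_neg]
        intro h3
        apply hne
        have := (hs' n').1 h3
        rw [← he] at this
        exact_mod_cast this
      · intro h3; exact absurd hn₀ h3
    · have h0 : ∑ n' ∈ Icc 1 N, (if s (h', n') = s (h, n) then ‖g n‖ * ‖g n'‖ else 0) = 0 := by
        apply sum_eq_zero
        intro n' hn'
        rw [if_neg]
        intro h3
        exact hex ⟨n', hn', (hs' n').1 h3⟩
      rw [h0]
      exact mul_nonneg (hv0 _) (hv0 _)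
  refine (sum_le_sum h2).trans ?_
  rw [sum_comm]
  apply sum_le_sum
  intro h' _
  apply le_of_eq
  refine sum_nbij (fun n => (n : ℤ)) ?_ ?_ ?_ ?_
  · intro n hn
    rw [mem_Icc] at hn
    rw [mem_Ioc]
    omega
  · intro n _ n' _ h3
    simpa using h3
  · intro n hn
    rw [mem_coe, mem_Ioc] at hn
    refine ⟨n.toNat, ?_, ?_⟩
    · rw [mem_coe, mem_Icc]
      omega
    · simp only
      omega
  · intro n _
    rfl

/-- **large correlations for many shifts** -/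
theorem corrW {f g : ℕ → ℂ} (hf : ∀ n, ‖f n‖ ≤ 1) {N H : ℕ} (hN : 0 < N)
    {E : Finset ℕ} (hE : E ⊆ Icc 1 H) {b₀ : ℝ} (hb : 0 < b₀)
    (hbig : ∀ h ∈ E, b₀ ≤ ‖∑ n ∈ Icc 1 N, g n * f (n + h)‖) (v : ℤ → ℝ)
    (hv0 : ∀ n, 0 ≤ v n) (hg : ∀ n ∈ Icc 1 N, ‖g n‖ ≤ v n)
    {J : ℕ} {A₁ A₂ A₃ τ : ℝ} (hτ : 0 < τ) (hA1 : 0 ≤ A₁) (hA3 : ∑ n ∈ Icc 1 N, ‖g n‖ ^ 2 ≤ A₃)
    (hK : ∀ K ⊆ range (N + H), K.card ≤ J →
      ∑ k ∈ K, ‖∑ m ∈ Icc 1 (N + H), f m * ee (m * ((k : ℝ) / (N + H : ℕ)))‖ ^ 2 ≤ A₁)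
    (hA2 : ∑ h ∈ E, ∑ h' ∈ E, ∑ n ∈ Ioc 0 (N : ℤ), v n * v (n + ((h : ℤ) - h')) ≤ A₂)
    (hJ : ((N + H : ℕ) : ℝ) ≤ J * τ ^ 2 * E.card) :
    b₀ * E.card * ((N + H : ℕ) : ℝ) ≤ √(A₁ * (((N + H : ℕ) : ℝ) * A₂)) +
      τ * E.card * (((N + H : ℕ) : ℝ) * √(((N + H : ℕ) : ℝ) * A₃)) := by
  classical
  set X := N + H with hX
  have hX0 : 0 < X := by omega
  have hXr : (0 : ℝ) < X := by exact_mod_cast hX0
  have hE0 : (0 : ℝ) ≤ E.card := Nat.cast_nonneg _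
  have hEp : (0 : ℝ) < E.card := by
    by_contra hc
    have h1 : (E.card : ℝ) = 0 := le_antisymm (not_lt.1 hc) hE0
    rw [h1, mul_zero] at hJ
    linarith
  set S : ℕ → ℂ := fun h => ∑ n ∈ Icc 1 N, g n * f (n + h) with hS
  set c : ℕ → ℂ := fun h => (starRingEnd ℂ) (S h) / ‖S h‖ with hc
  have hSpos : ∀ h ∈ E, 0 < ‖S h‖ := fun h hh => lt_of_lt_of_le hb (hbig h hh)
  have hc1 : ∀ h ∈ E, ‖c h‖ = 1 := by
    intro h hh
    have := hSpos h hh
    rw [hc]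
    simp only
    rw [norm_div, RCLike.norm_conj, Complex.norm_real, norm_norm, div_self this.ne']
  have hcS : ∀ h ∈ E, c h * S h = ‖S h‖ := by
    intro h hh
    have h1 := hSpos h hh
    have h2 : ((‖S h‖ : ℝ) : ℂ) ≠ 0 := by exact_mod_cast h1.ne'
    rw [hc]
    simp only
    rw [div_mul_eq_mul_div, Complex.conj_mul', sq, mul_div_assoc, div_self h2, mul_one]
  have htri := tri hN hE f g c
  rw [← hX] at htri
  set Ff : ℕ → ℂ := fun k => ∑ m ∈ Icc 1 X, f m * ee (m * ((k : ℝ) / X)) with hFf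
  set Gf : ℕ → ℂ := fun k => ∑ n ∈ Icc 1 N, g n * ee (-(n * ((k : ℝ) / X))) with hGf
  set Hf : ℕ → ℂ := fun k => ∑ h ∈ E, c h * ee (-(h * ((k : ℝ) / X))) with hHf
  have hlow : b₀ * E.card * X ≤ ∑ k ∈ range X, ‖Ff k‖ * (‖Gf k‖ * ‖Hf k‖) := by
    have h1 : ∑ h ∈ E, c h * S h = ((∑ h ∈ E, ‖S h‖ : ℝ) : ℂ) := by
      push_cast
      exact sum_congr rfl hcS
    have h2 : (X : ℝ) * ∑ h ∈ E, ‖S h‖ = ‖∑ k ∈ range X, Ff k * Gf k * Hf k‖ := by
      have h3 : ∑ k ∈ range X, Ff k * Gf k * Hf k = (X : ℂ) * ((∑ h ∈ E, ‖S h‖ : ℝ) : ℂ) := by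
        rw [← h1]; exact htri.symm
      rw [h3, norm_mul, Complex.norm_natCast, Complex.norm_real,
        Real.norm_of_nonneg (sum_nonneg fun _ _ => norm_nonneg _)]
    have h4 : b₀ * E.card ≤ ∑ h ∈ E, ‖S h‖ := by
      have := sum_le_sum hbig
      rw [sum_const, nsmul_eq_mul] at this
      linarith
    calc b₀ * E.card * X = (X : ℝ) * (b₀ * E.card) := by ring
      _ ≤ X * ∑ h ∈ E, ‖S h‖ := mul_le_mul_of_nonneg_left h4 hXr.le
      _ = _ := h2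
      _ ≤ ∑ k ∈ range X, ‖Ff k * Gf k * Hf k‖ := norm_sum_le _ _
      _ = _ := by
          apply sum_congr rfl
          intro k _
          rw [norm_mul, norm_mul, mul_assoc]
  -- Parseval
  have pF : ∑ k ∈ range X, ‖Ff k‖ ^ 2 ≤ (X : ℝ) ^ 2 := by
    rw [parseval hX0 Subset.rfl, sq]
    apply mul_le_mul_of_nonneg_left _ hXr.le
    calc ∑ m ∈ Icc 1 X, ‖f m‖ ^ 2 ≤ ∑ m ∈ Icc 1 X, (1 : ℝ) :=
          sum_le_sum fun m _ => pow_le_one₀ (norm_nonneg _) (hf m)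
      _ = X := by simp
  have pG : ∑ k ∈ range X, ‖Gf k‖ ^ 2 ≤ X * A₃ := by
    rw [pars_neg hX0 (Icc_subset_Icc_right (by omega))]
    exact mul_le_mul_of_nonneg_left hA3 hXr.le
  have pH : ∑ k ∈ range X, ‖Hf k‖ ^ 2 = X * E.card := by
    rw [pars_neg hX0 (hE.trans (Icc_subset_Icc_right (by omega)))]
    congr 1
    calc ∑ m ∈ E, ‖c m‖ ^ 2 = ∑ m ∈ E, (1 : ℝ) :=
          sum_congr rfl fun m hm => by rw [hc1 m hm]; norm_num
      _ = E.card := by simp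
  have pGH : ∑ k ∈ range X, ‖Gf k * Hf k‖ ^ 2 ≤ X * A₂ := by
    have h1 := conv_l2 hN hE g c v hv0 hg (fun h hh => (hc1 h hh).le)
    rw [← hX] at h1
    exact h1.trans (mul_le_mul_of_nonneg_left hA2 hXr.le)
  -- the large values
  set K := (range X).filter (fun k => τ * E.card < ‖Hf k‖) with hKd
  have hKc : K.card ≤ J := by
    have h1 : (K.card : ℝ) * (τ * E.card) ^ 2 ≤ X * E.card := by
      rw [← pH]
      calc (K.card : ℝ) * (τ * E.card) ^ 2 = ∑ k ∈ K, (τ * E.card) ^ 2 := by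
            rw [sum_const, nsmul_eq_mul]
        _ ≤ ∑ k ∈ K, ‖Hf k‖ ^ 2 := by
            apply sum_le_sum
            intro k hk
            rw [hKd, mem_filter] at hk
            exact pow_le_pow_left₀ (by positivity) hk.2.le 2
        _ ≤ ∑ k ∈ range X, ‖Hf k‖ ^ 2 :=
            sum_le_sum_of_subset_of_nonneg (filter_subset _ _) fun _ _ _ => by positivity
    have h2 : (K.card : ℝ) * (τ ^ 2 * E.card) ≤ J * (τ ^ 2 * E.card) := by
      have h3 : ((K.card : ℝ) * (τ ^ 2 * E.card)) * E.card ≤ (J * (τ ^ 2 * E.card)) * E.card := by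
        have h4 := mul_le_mul_of_nonneg_right hJ hE0
        linarith
      exact le_of_mul_le_mul_right h3 hEp
    exact_mod_cast le_of_mul_le_mul_right h2 (by positivity)
  have hKF := hK K (filter_subset _ _) hKc
  have hsplit : ∑ k ∈ range X, ‖Ff k‖ * (‖Gf k‖ * ‖Hf k‖) ≤
      ∑ k ∈ K, ‖Ff k‖ * ‖Gf k * Hf k‖ + ∑ k ∈ range X, (τ * E.card) * (‖Ff k‖ * ‖Gf k‖) := by
    rw [← sum_filter_add_sum_filter_not (range X) (fun k => τ * E.card < ‖Hf k‖)]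
    apply add_le_add
    · apply le_of_eq
      apply sum_congr rfl
      intro k _
      rw [norm_mul]
    · refine le_trans (sum_le_sum (g := fun k => (τ * E.card) * (‖Ff k‖ * ‖Gf k‖)) fun k hk => ?_)
        (sum_le_sum_of_subset_of_nonneg (filter_subset _ _) fun _ _ _ => by positivity)
      rw [mem_filter, not_lt] at hk
      have h1 := mul_le_mul_of_nonneg_left hk.2 (by positivity : 0 ≤ ‖Ff k‖ * ‖Gf k‖)
      linarith
  have cs : ∀ (T : Finset ℕ) (u w : ℕ → ℝ) (a b : ℝ), 0 ≤ a → ∑ k ∈ T, u k ^ 2 ≤ a → ∑ k ∈ T, w k ^ 2 ≤ b →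
      ∑ k ∈ T, u k * w k ≤ √(a * b) := by
    intro T u w a b ha h1 h2
    apply Real.le_sqrt_of_sq_le
    refine (sum_mul_sq_le_sq_mul_sq T u w).trans ?_
    exact mul_le_mul h1 h2 (sum_nonneg fun _ _ => sq_nonneg _) ha
  have hKGH : ∑ k ∈ K, ‖Gf k * Hf k‖ ^ 2 ≤ X * A₂ := by
    refine le_trans ?_ pGH
    exact sum_le_sum_of_subset_of_nonneg (filter_subset _ _) fun _ _ _ => by positivity
  have c1 := cs K (fun k => ‖Ff k‖) (fun k => ‖Gf k * Hf k‖) A₁ (X * A₂) hA1 hKF hKGH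
  have c2 := cs (range X) (fun k => ‖Ff k‖) (fun k => ‖Gf k‖) ((X : ℝ) ^ 2) (X * A₃) (by positivity) pF pG
  rw [Real.sqrt_mul (by positivity), Real.sqrt_sq hXr.le] at c2
  rw [← mul_sum] at hsplit
  have c3 := mul_le_mul_of_nonneg_left c2 (by positivity : 0 ≤ τ * E.card)
  linarith

end Pool.Agent.E8helper68.PJ
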