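import Pool.Agent.H49.G.R_pool_sql_team_seeded_b677cdb8.E8helper68.PJ.ArcsA
import Pool.Agent.H49.G.R_pool_sql_team_seeded_b677cdb8.E8helper68.PJ.Siv3
import Pool.Agent.H49.G.R_pool_sql_team_seeded_b677cdb8.E8helper68.PJ.Four

set_option autoImplicit false

/-!
# The energy of the restricted Liouville function on few frequencies
-/

open Finset MeasureTheory
open scoped Real
open Pool.Agent.Helper112

namespace Pool.Agent.E8helper68.PJ

open Pool.Agent.TH823.PS Pool.Agent.W66 Pool.Agent.W66L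
open Pool.Agent.H373R2.T7 (liR liR_norm)

/-- the Liouville function, with the value `0` at `0` -/
noncomputable def li (n : ℕ) : ℂ := if n = 0 then 0 else liR n

lemma li_LF : LF li := by
  refine ⟨fun n => ?_, fun p n hp => ?_⟩
  · unfold li
    split_ifs
    · simp
    · exact liR_norm n
  · unfold li
    rcases Nat.eq_zero_or_pos n with rfl | hn
    · simp
    · rw [if_neg (Nat.mul_pos hp.pos hn).ne', if_neg hn.ne']
      unfold liR
      rw [ArithmeticFunction.cardFactors_mul hp.ne_zero hn.ne', ArithmeticFunction.cardFactors_apply_prime hp,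
        pow_add, pow_one]
      ring

lemma PP_li : ∃ N0 : ℕ, ∀ N : ℕ, N0 ≤ N → ∀ V : ℕ, 4 ≤ V → ((V * V) * (V * V)) * ((V * V) * (V * V)) ≤ N →
    Pool.Agent.W93.LM.PP li 4000000 8 N V := by
  obtain ⟨N0, h⟩ := Pool.Agent.W93.LM.PP_liou
  refine ⟨N0, fun N hN V hV hVN α => ?_⟩
  have h1 := h N hN V hV hVN α
  have e : ∑ n ∈ Icc 1 N, li n * Pool.Agent.H807R2.Dav.ee ((n : ℝ) * α) =
      ∑ n ∈ Icc 1 N, liR n * Pool.Agent.H807R2.Dav.ee ((n : ℝ) * α) := by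
    apply sum_congr rfl
    intro n hn
    rw [mem_Icc] at hn
    unfold li
    rw [if_neg (by omega)]
  rw [e]
  exact h1

/-- the small power of the base scale -/
noncomputable def qq (Q : ℕ) : ℝ := (Q : ℝ) ^ (1 / 100 : ℝ)

lemma qq_pow {Q : ℕ} : qq Q ^ 100 = Q := by
  unfold qq
  rw [← Real.rpow_natCast, ← Real.rpow_mul (Nat.cast_nonneg Q)]
  norm_num

lemma one_le_qq {Q : ℕ} (hQ : 1 ≤ Q) : 1 ≤ qq Q := by
  unfold qq
  exact Real.one_le_rpow (by exact_mod_cast hQ) (by norm_num)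

lemma qq_pow_le {Q : ℕ} (hQ : 1 ≤ Q) {k : ℕ} (hk : k ≤ 100) : qq Q ^ k ≤ Q := by
  rw [← qq_pow (Q := Q)]
  exact pow_le_pow_right₀ (one_le_qq hQ) hk

lemma logpow (C : ℝ) (k : ℕ) : ∃ Q0 : ℕ, ∀ Q : ℕ, Q0 ≤ Q → C * Real.log Q ^ k ≤ qq Q := by
  have h1 := (isLittleO_log_rpow_rpow_atTop (k : ℝ) (s := 1 / 100) (by norm_num)).def
    (show (0 : ℝ) < 1 / (|C| + 1) by positivity)
  obtain ⟨x0, hx0⟩ := Filter.eventually_atTop.1 h1
  obtain ⟨N0, hN0⟩ := exists_nat_ge x0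
  refine ⟨N0 + 1, fun Q hQ => ?_⟩
  have hQ1 : (1 : ℝ) ≤ Q := by exact_mod_cast (by omega : 1 ≤ Q)
  have h2 := hx0 Q (hN0.trans (by exact_mod_cast (by omega : N0 ≤ Q)))
  have hl0 : 0 ≤ Real.log Q := Real.log_nonneg hQ1
  rw [Real.rpow_natCast, Real.norm_of_nonneg (by positivity), Real.norm_of_nonneg (by positivity)] at h2
  unfold qq
  have h3 : C * Real.log Q ^ k ≤ (|C| + 1) * Real.log Q ^ k := by
    apply mul_le_mul_of_nonneg_right _ (by positivity)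
    have := le_abs_self C
    linarith
  refine h3.trans ?_
  have h4 := mul_le_mul_of_nonneg_left h2 (by positivity : 0 ≤ |C| + 1)
  refine h4.trans (le_of_eq ?_)
  field_simp

/-- **the energy on few frequencies** -/
theorem energyK (κ : ℝ) (hκ : 0 < κ) (hκ1 : κ ≤ 1) (T : ℕ) (hT : 1 ≤ T) (E₀ : ℕ) :
    ∃ E A B Q0 : ℕ, E₀ ≤ E ∧ 1 ≤ A ∧ T * A + 2 ≤ B ∧ ∀ Q : ℕ, Q0 ≤ Q → NE 6 E Q → ∀ X : ℕ, Q ^ (A + 1) ≤ X → X ≤ Q ^ (B - 1) →
    ∀ M : ℕ, 1 ≤ M → (M : ℝ) ≤ qq Q → ∀ (ρ : ℝ) (α : ℕ → ℂ), Al M ρ α → 1 / (M : ℝ) ≤ ρ →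
    ∀ K ⊆ range X, (K.card : ℝ) ≤ qq Q ^ 5 →
    ∑ k ∈ K, ‖∑ m ∈ Icc 1 X, li m * α m * ee (m * ((k : ℝ) / X))‖ ^ 2 ≤ 4 * κ * ρ * (X : ℝ) ^ 2 := by
  obtain ⟨E, A, B, hE, hEA, hTB, Q0, hev⟩ := every κ hκ hκ1 T hT (E₀ + 1)
  obtain ⟨N0, hPP⟩ := PP_li
  obtain ⟨Q1, hQ1⟩ := logpow (2 * 4000000 ^ 2 * (B : ℝ) ^ 16 / κ) 16
  obtain ⟨Q2, hQ2⟩ := logpow (3200 / κ + 4) 0
  refine ⟨E, A, B, Q0 + N0 + Q1 + Q2 + 3, by omega, by omega, hTB, fun Q hQ hne X hX1 hX2 M hM hMq ρ α hα hρM K hK hKc => ?_⟩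
  have hQ3 : 3 ≤ Q := by omega
  have hQr : (3 : ℝ) ≤ Q := by exact_mod_cast hQ3
  have hQ0 : (0 : ℝ) < Q := by linarith
  set q := qq Q with hq
  have hq1 : 1 ≤ q := one_le_qq (by omega)
  have hq0 : 0 < q := by linarith
  have hq100 : q ^ 100 = Q := qq_pow
  have hlogpow := hQ1 Q (by omega)
  have hq4 := hQ2 Q (by omega)
  rw [pow_zero, mul_one] at hq4
  have hκ0 : 0 < 3200 / κ := by positivity
  have hq4' : 4 ≤ q := by linarith
  have hL := log_ge_one hQ3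
  -- the parameters
  set V := ⌊q ^ 25⌋₊ with hV
  have hq25 : 1 ≤ q ^ 25 := one_le_pow₀ hq1
  have hVle : (V : ℝ) ≤ q ^ 25 := Nat.floor_le (by positivity)
  have hVge : q ^ 25 / 2 ≤ V := by
    have h1 : q ^ 25 < V + 1 := Nat.lt_floor_add_one _
    have h2 : 4 ≤ q ^ 25 := hq4'.trans (le_self_pow₀ hq1 (by norm_num))
    linarith
  have hV4 : 4 ≤ V := by
    apply Nat.le_floor
    push_cast
    exact hq4'.trans (le_self_pow₀ hq1 (by norm_num))
  have hV0 : (0 : ℝ) < V := by exact_mod_cast (by omega : 0 < V)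
  have hMr : (1 : ℝ) ≤ M := by exact_mod_cast hM
  have hM0 : (0 : ℝ) < M := by linarith
  set R := M * V with hR
  have hR1 : 1 ≤ R := Nat.mul_pos hM (by omega)
  have hMR : M * R ≤ Q := by
    have h1 : ((M * R : ℕ) : ℝ) ≤ Q := by
      rw [hR]
      push_cast
      calc (M : ℝ) * (M * V) ≤ q * (q * q ^ 25) := by gcongr
        _ = q ^ 27 := by ring
        _ ≤ Q := qq_pow_le (by omega) (by norm_num)
    exact_mod_cast h1
  have hRQ : R ≤ Q := (Nat.le_mul_of_pos_left R hM).trans hMR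
  have hXQ : Q ≤ X := (Nat.le_self_pow (by omega) Q).trans hX1
  have hX0 : 0 < X := by omega
  have hXr : (0 : ℝ) < X := by exact_mod_cast hX0
  set L := Real.log X with hLdef
  have hL0 : 0 ≤ L := Real.log_natCast_nonneg X
  have hL1 : L ≤ B * Real.log Q := by
    have h1 : (X : ℝ) ≤ (Q : ℝ) ^ (B - 1) := by exact_mod_cast hX2
    have h2 := Real.log_le_log hXr h1
    rw [Real.log_pow] at h2
    have h3 : ((B - 1 : ℕ) : ℝ) ≤ B := by exact_mod_cast (by omega : B - 1 ≤ B)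
    have h4 := mul_le_mul_of_nonneg_right h3 (by linarith : 0 ≤ Real.log Q)
    linarith
  have hρ0 : 0 < ρ := lt_of_lt_of_le (by positivity) hρM
  have hρq : 1 / q ≤ ρ := (one_div_le_one_div_of_le hM0 hMq).trans hρM
  -- the main term
  have hint := hev Q (by omega) hne M R hM hR1 hMR ρ li α li_LF hα 1 (Nat.coprime_one_left M) L (by
      have h1 : ((Q : ℝ)) ^ A ≤ X := by
        have : Q ^ A ≤ X := (Nat.pow_le_pow_right (by omega) (by omega)).trans hX1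
        exact_mod_cast this
      have h2 := Real.log_le_log (by positivity) h1
      rwa [Real.log_pow] at h2) (by
      have h1 : (X : ℝ) ≤ (Q : ℝ) ^ (B - 1) := by exact_mod_cast hX2
      have h2 := Real.log_le_log hXr h1
      rw [Real.log_pow] at h2
      have h3 : ((B - 1 : ℕ) : ℝ) = B - 1 := by
        rw [Nat.cast_sub (by omega)]; simp
      rw [h3] at h2
      linarith)
  have eF : (fun n : ℕ => FF li α 1 n / (n : ℂ)) = fun n : ℕ => li n * α n / n := by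
    ext n
    unfold FF
    rw [one_mul]
  rw [eF, hLdef, Real.exp_log hXr] at hint
  have hzX : Q ^ (13 * E) * Q ≤ X := by
    rw [← pow_succ]
    exact (Nat.pow_le_pow_right (by omega) (by omega)).trans hX1
  have hPX := hPP X (by omega) V hV4 (by
    have h1 : (((V * V) * (V * V)) * ((V * V) * (V * V))) = V ^ 8 := by ring
    rw [h1]
    have h2 : (V : ℝ) ^ 8 ≤ X := by
      calc (V : ℝ) ^ 8 ≤ (q ^ 25) ^ 8 := pow_le_pow_left₀ hV0.le hVle 8
        _ = (Q : ℝ) ^ 2 := by rw [← hq100]; ring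
        _ ≤ X := by
          have : Q ^ 2 ≤ X := (Nat.pow_le_pow_right (by omega) (by omega)).trans hX1
          exact_mod_cast this
    exact_mod_cast h2)
  have harc := arcsA li_LF hM (le_refl (M * V)) hα hPX (X := X) (z := Q ^ (13 * E)) (N := Q ^ B) le_rfl
    (Nat.one_le_pow _ _ (by omega)) ((Nat.le_mul_of_pos_right _ (by omega)).trans hzX)
    (hX2.trans (Nat.pow_le_pow_right (by omega) (by omega))) hR1
    (h := 1 / (Q : ℝ) ^ 3) (by positivity) (by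
      rw [div_le_one (by positivity)]
      exact one_le_pow₀ (by linarith)) K hK
  refine harc.trans ?_
  rw [← hR, ← hLdef]
  have hK0 : (0 : ℝ) ≤ K.card := Nat.cast_nonneg _
  have e1 : (K.card : ℝ) * (M * (4000000 * L ^ 8 * X / √(V : ℝ))) ^ 2 ≤ κ * ρ * (X : ℝ) ^ 2 := by
    have h1 : (K.card : ℝ) * (M * (4000000 * L ^ 8 * X / √(V : ℝ))) ^ 2 =
        (K.card * M ^ 2 * (4000000 ^ 2 * L ^ 16)) * (X : ℝ) ^ 2 / V := by
      rw [mul_pow, div_pow, Real.sq_sqrt hV0.le]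
      ring
    rw [h1, div_le_iff₀ hV0]
    have h2 : (K.card : ℝ) * M ^ 2 * (4000000 ^ 2 * L ^ 16) ≤ q ^ 5 * q ^ 2 * (4000000 ^ 2 * (B * Real.log Q) ^ 16) := by
      gcongr
    have h3 : (4000000 : ℝ) ^ 2 * (B * Real.log Q) ^ 16 ≤ κ / 2 * q := by
      have h4 : 2 * 4000000 ^ 2 * (B : ℝ) ^ 16 / κ * Real.log Q ^ 16 = 2 / κ * (4000000 ^ 2 * (B * Real.log Q) ^ 16) := by
        field_simp
      rw [h4] at hlogpow
      have h5 := mul_le_mul_of_nonneg_left hlogpow (by positivity : 0 ≤ κ / 2)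
      refine le_trans (le_of_eq ?_) h5
      field_simp
    have h4 : q ^ 5 * q ^ 2 * (4000000 ^ 2 * (B * Real.log Q) ^ 16) ≤ q ^ 5 * q ^ 2 * (κ / 2 * q) :=
      mul_le_mul_of_nonneg_left h3 (by positivity)
    have h5 : q ^ 5 * q ^ 2 * (κ / 2 * q) ≤ κ * ρ * V := by
      have h6 : κ * (1 / q) * (q ^ 25 / 2) ≤ κ * ρ * V := by gcongr
      refine le_trans ?_ h6
      have h7 : κ * (1 / q) * (q ^ 25 / 2) = κ / 2 * q ^ 24 := by field_simp
      rw [h7]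
      have h8 : q ^ 5 * q ^ 2 * (κ / 2 * q) = κ / 2 * q ^ 8 := by ring
      rw [h8]
      exact mul_le_mul_of_nonneg_left (pow_le_pow_right₀ hq1 (by norm_num)) (by positivity)
    calc (K.card : ℝ) * M ^ 2 * (4000000 ^ 2 * L ^ 16) * (X : ℝ) ^ 2 ≤ κ * ρ * V * (X : ℝ) ^ 2 :=
          mul_le_mul_of_nonneg_right (h2.trans (h4.trans h5)) (by positivity)
      _ = _ := by ring
  have e2 : 2 * (K.card : ℝ) * ((Q ^ (13 * E) : ℕ) + 4 + 18 * (1 / (Q : ℝ) ^ 3) * X + 4 * π * (1 / (Q : ℝ) ^ 3) * R * X) ^ 2 ≤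
      κ * ρ * (X : ℝ) ^ 2 := by
    have a0 : 0 ≤ (X : ℝ) / Q := by positivity
    have a1 : ((Q ^ (13 * E) : ℕ) : ℝ) ≤ X / Q := by
      rw [le_div_iff₀ hQ0]
      exact_mod_cast hzX
    have a2 : (4 : ℝ) ≤ 4 * (X / Q) := by
      have : 1 ≤ (X : ℝ) / Q := by
        rw [one_le_div hQ0]
        exact_mod_cast hXQ
      linarith
    have hQ2' : (Q : ℝ) ≤ (Q : ℝ) ^ 3 := le_self_pow₀ (by linarith) (by norm_num)
    have a3 : 18 * (1 / (Q : ℝ) ^ 3) * X ≤ 18 * (X / Q) := by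
      have h1 : (X : ℝ) / (Q : ℝ) ^ 3 ≤ X / Q := div_le_div_of_nonneg_left hXr.le hQ0 hQ2'
      calc 18 * (1 / (Q : ℝ) ^ 3) * X = 18 * (X / (Q : ℝ) ^ 3) := by ring
        _ ≤ _ := by linarith
    have a4 : 4 * π * (1 / (Q : ℝ) ^ 3) * (R : ℝ) * (X : ℝ) ≤ 13 * ((X : ℝ) / Q) := by
      have hRr : (R : ℝ) ≤ Q := by exact_mod_cast hRQ
      have hpi : 4 * π ≤ 13 := by have := Real.pi_lt_d2; linarith
      have h1 : (R : ℝ) * ((X : ℝ) / (Q : ℝ) ^ 3) ≤ (X : ℝ) / Q := by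
        rw [mul_div_assoc', div_le_div_iff₀ (by positivity) hQ0]
        have h2 : (R : ℝ) * Q ≤ (Q : ℝ) ^ 3 := by
          calc (R : ℝ) * Q ≤ Q * Q := mul_le_mul_of_nonneg_right hRr hQ0.le
            _ = (Q : ℝ) ^ 2 := by ring
            _ ≤ (Q : ℝ) ^ 3 := pow_le_pow_right₀ (by linarith) (by norm_num)
        calc (R : ℝ) * X * Q = X * (R * Q) := by ring
          _ ≤ X * (Q : ℝ) ^ 3 := mul_le_mul_of_nonneg_left h2 hXr.le
      calc 4 * π * (1 / (Q : ℝ) ^ 3) * (R : ℝ) * (X : ℝ) = 4 * π * ((R : ℝ) * ((X : ℝ) / (Q : ℝ) ^ 3)) := by ring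
        _ ≤ 13 * ((X : ℝ) / Q) := mul_le_mul hpi h1 (by positivity) (by norm_num)
    have a5 : ((Q ^ (13 * E) : ℕ) : ℝ) + 4 + 18 * (1 / (Q : ℝ) ^ 3) * X + 4 * π * (1 / (Q : ℝ) ^ 3) * R * X ≤ 40 * (X / Q) := by
      linarith
    have a6 := pow_le_pow_left₀ (by positivity) a5 2
    have a7 : 2 * (K.card : ℝ) * ((Q ^ (13 * E) : ℕ) + 4 + 18 * (1 / (Q : ℝ) ^ 3) * X + 4 * π * (1 / (Q : ℝ) ^ 3) * R * X) ^ 2 ≤
        2 * q ^ 5 * (40 * (X / Q)) ^ 2 := by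
      apply mul_le_mul (by linarith) a6 (by positivity) (by positivity)
    refine a7.trans ?_
    have a8 : 2 * q ^ 5 * (40 * (X / Q)) ^ 2 = (3200 * q ^ 5 / (Q : ℝ) ^ 2) * (X : ℝ) ^ 2 := by
      field_simp
      ring
    rw [a8]
    apply mul_le_mul_of_nonneg_right _ (by positivity)
    rw [div_le_iff₀ (by positivity)]
    have a9 : 3200 ≤ κ * q := by
      have : 3200 / κ ≤ q := by linarith
      rwa [div_le_iff₀ hκ, mul_comm] at this
    have a10 : κ * (1 / q) * (q ^ 100) ^ 2 ≤ κ * ρ * (Q : ℝ) ^ 2 := by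
      rw [hq100]
      gcongr
    refine le_trans ?_ a10
    have a11 : κ * (1 / q) * (q ^ 100) ^ 2 = κ * q * q ^ 198 := by
      field_simp
    rw [a11]
    calc 3200 * q ^ 5 ≤ (κ * q) * q ^ 5 := mul_le_mul_of_nonneg_right a9 (by positivity)
      _ ≤ _ := mul_le_mul_of_nonneg_left (pow_le_pow_right₀ hq1 (by norm_num)) (by positivity)
  have e3 : 2 * ((X : ℝ) * ∫ x in Set.Iic L, Real.exp x *
      EE (1 / (Q : ℝ) ^ 3) R (Ioc (Q ^ (13 * E)) (Q ^ B)) (fun n => li n * α n / n) x) ≤ 2 * (κ * ρ * (X : ℝ) ^ 2) := by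
    have h1 := mul_le_mul_of_nonneg_left hint hXr.le
    rw [hLdef]
    calc _ ≤ 2 * ((X : ℝ) * (κ * (ρ * X))) := by linarith
      _ = _ := by ring
  linarith

end Pool.Agent.E8helper68.PJ
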