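import Pool.Agent.H49.G.R_pool_sql_team_seeded_b677cdb8.E8helper68.PJ.Fin2

set_option autoImplicit false

/-!
# One class of shifts: the bound
-/

open Finset MeasureTheory
open scoped Real
open Pool.Agent.Helper112

namespace Pool.Agent.E8helper68.PJ

open Pool.Agent.TH823.PS Pool.Agent.W66 Pool.Agent.W66L
open Pool.Agent.H373R2.T7 (liR liR_norm pz mem_pz)
open Pool.Agent.Y842.JC (Lz Lz_nonneg Lz_le)

/-- the sieved part of a sum -/
lemma sieve_part {f D N w : ℕ} {W : ℝ} {𝒜 : Finset ℕ} (h𝒜 : 𝒜.card ≤ f) (hsz : ∀ a ∈ 𝒜, a ≤ D * N)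
    (hN : 3 ≤ N) (hWe : W = Real.log ((D + 1) * N : ℕ)) (hwW : (w : ℝ) ≤ W)
    {g G : ℕ → ℂ} (hg : ∀ n ∈ Icc 1 N, ‖g n‖ ≤ ∏ a ∈ 𝒜, Lz (n + a)) (hG : ∀ n, ‖G n‖ ≤ 1) :
    ‖∑ n ∈ Icc 1 N, g n * G n‖ ≤ ‖∑ n ∈ Icc 1 N, (g n * al w 𝒜 0 n) * (G n * al w 𝒜 0 n)‖ +
      4 * f * (D + 1) * (W ^ (f + 1) * √(N : ℝ)) := by
  classical
  have hNr : (3 : ℝ) ≤ N := by exact_mod_cast hN
  have hN0 : (0 : ℝ) < N := by linarith
  have hD0 : (0 : ℝ) ≤ D := Nat.cast_nonneg D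
  have hX3 : 3 ≤ (D + 1) * N := hN.trans (Nat.le_mul_of_pos_left N (by omega))
  have hW1 : 1 ≤ W := by
    rw [hWe, Real.le_log_iff_exp_le (by exact_mod_cast (by omega : 0 < (D + 1) * N))]
    have h1 := Real.exp_one_lt_d9
    have h2 : (3 : ℝ) ≤ ((D + 1) * N : ℕ) := by exact_mod_cast hX3
    linarith
  have hW0 : 0 ≤ W := by linarith
  have h1 := lam_bad (c := f) (y := w) hX3 (Ioc 0 (N : ℤ)) (zs 𝒜) (by rw [card_zs]; exact h𝒜) (by
    intro n hn u hu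
    obtain ⟨a, ha, rfl⟩ := mem_zs.1 hu
    rw [mem_Ioc] at hn
    have h3 : (a : ℤ) ≤ D * N := by exact_mod_cast hsz a ha
    push_cast
    nlinarith [hn.2])
  rw [← hWe] at h1
  have hsq : √(((D + 1) * N : ℕ) : ℝ) ≤ (D + 1) * √(N : ℝ) := by
    rw [Nat.cast_mul, Real.sqrt_mul (by positivity)]
    apply mul_le_mul_of_nonneg_right _ (Real.sqrt_nonneg _)
    rw [Real.sqrt_le_left (by positivity)]
    push_cast
    nlinarith
  have hs1 : 1 ≤ √(N : ℝ) := by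
    rw [Real.one_le_sqrt]
    linarith
  have hs0 : 0 ≤ √(N : ℝ) := Real.sqrt_nonneg _
  have h2 : W ^ f * (f * (2 * √(((D + 1) * N : ℕ) : ℝ) * W + 2 * w)) ≤ 4 * f * (D + 1) * (W ^ (f + 1) * √(N : ℝ)) := by
    have h3 : 2 * √(((D + 1) * N : ℕ) : ℝ) * W + 2 * w ≤ 4 * ((D + 1) * √(N : ℝ)) * W := by
      have h4 : √(((D + 1) * N : ℕ) : ℝ) * W ≤ (D + 1) * √(N : ℝ) * W := mul_le_mul_of_nonneg_right hsq hW0
      have h5 : 1 ≤ (D + 1) * √(N : ℝ) := by nlinarith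
      have h6 : (w : ℝ) ≤ (D + 1) * √(N : ℝ) * W := hwW.trans (le_mul_of_one_le_left hW0 h5)
      linarith
    calc _ ≤ W ^ f * (f * (4 * ((D + 1) * √(N : ℝ)) * W)) := by gcongr
      _ = _ := by ring
  have h3 : ∑ n ∈ Icc 1 N, g n * G n = ∑ n ∈ Icc 1 N, (g n * al w 𝒜 0 n) * (G n * al w 𝒜 0 n) +
      ∑ n ∈ Icc 1 N, g n * G n * (1 - al w 𝒜 0 n * al w 𝒜 0 n) := by
    rw [← sum_add_distrib]
    apply sum_congr rfl
    intro n _
    ring
  rw [h3]
  refine (norm_add_le _ _).trans ?_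
  apply add_le_add le_rfl
  refine le_trans ?_ (h1.trans h2)
  refine (norm_sum_le _ _).trans ?_
  have h4 : ∀ n ∈ Icc 1 N, ‖g n * G n * (1 - al w 𝒜 0 n * al w 𝒜 0 n)‖ ≤
      if (∃ p ∈ pz w, ∃ t ∈ zs 𝒜, (p : ℤ) ∣ (n : ℤ) + t) then ∏ t ∈ zs 𝒜, Lz ((n : ℤ) + t) else 0 := by
    intro n hn
    have hprod : ∏ t ∈ zs 𝒜, Lz ((n : ℤ) + t) = ∏ a ∈ 𝒜, Lz (n + a) := by
      unfold zs
      rw [prod_map]
      rfl
    split_ifs with hc
    · have h5 : al w 𝒜 0 n = 0 := by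
        unfold al
        rw [if_neg]
        intro h6
        obtain ⟨p, hp, t, ht, hd⟩ := hc
        obtain ⟨a, ha, rfl⟩ := mem_zs.1 ht
        apply h6 p hp a ha
        rw [add_zero]
        exact_mod_cast hd
      rw [h5, hprod, mul_zero, sub_zero, mul_one, norm_mul]
      calc ‖g n‖ * ‖G n‖ ≤ ‖g n‖ * 1 := mul_le_mul_of_nonneg_left (hG n) (norm_nonneg _)
        _ ≤ _ := by rw [mul_one]; exact hg n hn
    · have h5 : al w 𝒜 0 n = 1 := by
        unfold al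
        rw [if_pos]
        intro p hp a ha hd
        apply hc
        refine ⟨p, hp, a, mem_zs.2 ⟨a, ha, rfl⟩, ?_⟩
        rw [add_zero] at hd
        exact_mod_cast hd
      rw [h5, mul_one, sub_self, mul_zero, norm_zero]
  refine (sum_le_sum h4).trans ?_
  rw [← sum_filter]
  apply le_of_eq
  refine sum_nbij (fun n => (n : ℤ)) ?_ ?_ ?_ ?_
  · intro n hn
    rw [mem_filter, mem_Icc] at hn
    rw [mem_filter, mem_Ioc]
    exact ⟨by omega, hn.2⟩
  · intro n _ n' _ h3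
    simpa using h3
  · intro n hn
    rw [mem_coe, mem_filter, mem_Ioc] at hn
    refine ⟨n.toNat, ?_, ?_⟩
    · rw [mem_coe, mem_filter, mem_Icc]
      have h5 : ((n.toNat : ℕ) : ℤ) = n := Int.toNat_of_nonneg (by omega)
      rw [h5]
      exact ⟨by omega, hn.2⟩
    · simp only
      omega
  · intro n _
    rfl

/-- the numerical contradiction -/
lemma final_contra {ε C D κ ρ N X s P V q : ℝ} (hε : 0 < ε) (hC : 0 < C) (hD : 1 ≤ D)
    (hκ : κ = ε ^ 2 / (256 * ((C + 1) * (D + 1)))) (hρ : 0 < ρ) (hN : 0 < N) (hX : X = (D + 1) * N) (hs : 0 < s)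
    (hP : 1 ≤ P) (hV : 0 ≤ V) (hq : 0 < q) (hqV : 8 * (D + 1) / ε * V ≤ q)
    (h : ε / 2 * P * N * s * X ≤ √(4 * κ * ρ * X ^ 2 * (X * (s ^ 2 * ((C + 1) * N * P ^ 2) / ρ))) +
      1 / q * s * (X * √(X * (N * V ^ 2)))) : False := by
  have hX0 : 0 < X := by rw [hX]; positivity
  have hP0 : 0 < P := by linarith
  have t1 : √(4 * κ * ρ * X ^ 2 * (X * (s ^ 2 * ((C + 1) * N * P ^ 2) / ρ))) ≤ ε / 8 * P * N * s * X := by
    rw [Real.sqrt_le_left (by positivity)]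
    apply le_of_eq
    rw [hκ, hX]
    field_simp
    ring
  have t2 : 1 / q * s * (X * √(X * (N * V ^ 2))) ≤ ε / 8 * N * s * X := by
    have h1 : √(X * (N * V ^ 2)) ≤ (D + 1) * N * V := by
      rw [Real.sqrt_le_left (by positivity), hX]
      have h2 : (D + 1) * N * (N * V ^ 2) = (D + 1) * (N ^ 2 * V ^ 2) := by ring
      rw [h2]
      have h3 : ((D + 1) * N * V) ^ 2 = (D + 1) ^ 2 * (N ^ 2 * V ^ 2) := by ring
      rw [h3]
      apply mul_le_mul_of_nonneg_right _ (by positivity)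
      nlinarith
    have h3 : (D + 1) * V / q ≤ ε / 8 := by
      rw [div_le_iff₀ hq]
      have h4 := mul_le_mul_of_nonneg_left hqV (by positivity : 0 ≤ ε / 8)
      refine le_trans (le_of_eq ?_) h4
      field_simp
    calc 1 / q * s * (X * √(X * (N * V ^ 2))) ≤ 1 / q * s * (X * ((D + 1) * N * V)) := by gcongr
      _ = ((D + 1) * V / q) * (N * s * X) := by ring
      _ ≤ (ε / 8) * (N * s * X) := mul_le_mul_of_nonneg_right h3 (by positivity)
      _ = _ := by ring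
  have t3 : ε / 8 * N * s * X ≤ ε / 8 * P * N * s * X := by
    have h0 : 0 ≤ ε / 8 * N * s * X := by positivity
    have h1 := mul_le_mul_of_nonneg_right hP h0
    linarith
  have t4 : 0 < ε * P * N * s * X := by positivity
  linarith

/-- the constants -/
lemma c0_bounds {f D ε C0 : ℝ} (hf1 : 1 ≤ f) (hD1 : 1 ≤ D) (hε : 0 < ε) (hε1 : ε ≤ 1)
    (hC0d : C0 = 100 * (f + 1) ^ 2 * (D + 1) / ε) :
    f ^ 2 ≤ C0 ∧ 8 * (D + 1) / ε ≤ C0 ∧ 8 * f * (D + 1) / ε ≤ C0 := by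
  refine ⟨?_, ?_, ?_⟩
  · rw [hC0d, le_div_iff₀ hε]
    have h1 : f ^ 2 * ε ≤ f ^ 2 := mul_le_of_le_one_right (by positivity) hε1
    nlinarith [mul_pos (by positivity : (0 : ℝ) < (f + 1) ^ 2) (by linarith : (0 : ℝ) < D + 1)]
  · rw [hC0d]
    apply div_le_div_of_nonneg_right _ hε.le
    have h1 : (1 : ℝ) ≤ (f + 1) ^ 2 := one_le_pow₀ (by linarith)
    nlinarith [mul_le_mul_of_nonneg_right h1 (by linarith : (0 : ℝ) ≤ D + 1)]
  · rw [hC0d]
    apply div_le_div_of_nonneg_right _ hε.le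
    have h1 : f ≤ (f + 1) ^ 2 := by nlinarith
    nlinarith [mul_le_mul_of_nonneg_right h1 (by linarith : (0 : ℝ) ≤ D + 1)]

lemma len_aux {D N n a : ℕ} (hn : n ≤ N) (ha : a ≤ D * N) : n + a ≤ (2 * D + 1) * N := by nlinarith

lemma len_aux' {D N : ℕ} : N + D * N ≤ (2 * D + 1) * N := by nlinarith

/-- **one class of shifts**: few shifts of the class have a large correlation -/
theorem one_class (f D : ℕ) (hf : 1 ≤ f) (hD : 1 ≤ D) (ε : ℝ) (hε : 0 < ε) (hε1 : ε ≤ 1) (T : ℕ) (hT : 1 ≤ T) (E₀ : ℕ) :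
    ∃ E A B Q0 : ℕ, E₀ ≤ E ∧ 1 ≤ A ∧ T * A + 2 ≤ B ∧ ∀ Q : ℕ, Q0 ≤ Q → NE 6 E Q → ∀ N : ℕ, Q ^ (A + 1) ≤ N →
    (2 * D + 1) * N ≤ Q ^ (B - 1) → ∃ M : ℕ, 1 ≤ M ∧ (M : ℝ) ≤ qq Q ∧ ∀ 𝒜 : Finset ℕ, 𝒜.card ≤ f →
    (∀ a ∈ 𝒜, a ≤ D * N) → ∀ g : ℕ → ℂ, (∀ n ∈ Icc 1 N, ‖g n‖ ≤ ∏ a ∈ 𝒜, Lz (n + a)) → ∀ h0 : ℕ,
    ∀ S ⊆ Icc 1 (D * N), (∀ h ∈ S, h ≡ h0 [MOD M]) →
    (∀ h ∈ S, ε * PiA (zs 𝒜) * N ≤ ‖∑ n ∈ Icc 1 N, g n * li (n + h)‖) →
    (S.card : ℝ) * qq Q ^ 2 < N := by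
  obtain ⟨C, hC, K, w0, N0, hpair⟩ := pair f hf D hD
  obtain ⟨x0, hdens⟩ := rho_dens f hf
  set κ : ℝ := ε ^ 2 / (256 * ((C + 1) * (D + 1))) with hκ
  have hD1 : (1 : ℝ) ≤ D := by exact_mod_cast hD
  have hC0 : 0 < C := by linarith
  have hκ0 : 0 < κ := by positivity
  have hκ1 : κ ≤ 1 := by
    rw [hκ, div_le_one (by positivity)]
    have h1 : ε ^ 2 ≤ 1 := pow_le_one₀ hε.le hε1
    have h2 : 1 ≤ (C + 1) * ((D : ℝ) + 1) := one_le_mul_of_one_le_of_one_le (by linarith) (by linarith)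
    linarith
  obtain ⟨E, A, B, Q1, hE, hA, hTB, hen⟩ := energyK κ hκ0 hκ1 T hT E₀
  set C0 : ℝ := 100 * ((f : ℝ) + 1) ^ 2 * (D + 1) / ε with hC0d
  obtain ⟨Q2, hQ2⟩ := params f K B (w0 + x0 + 3) (N0 + 4) C0
  refine ⟨E, A, B, Q1 + Q2 + 2 * (2 * D + 4), hE, hA, hTB, fun Q hQ hne N hN1 hN2 => ?_⟩
  obtain ⟨p1, p2, p3, p4, p5, p6, p7, p8, p9⟩ := hQ2 Q (by omega)
  set w := wQ Q with hw
  set q := qq Q with hq
  have hen' := hen Q (by omega) hne
  refine ⟨Mw w, Mw_pos w, p3, fun 𝒜 h𝒜 hsz g hg h0 S hS hcl hbig => ?_⟩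
  by_contra hcon
  push Not at hcon
  -- basic facts
  have hQr : (4 : ℝ) ≤ Q := by exact_mod_cast p8
  have hQ0 : (0 : ℝ) < Q := by linarith
  have hq1 : 1 ≤ q := p9.le
  have hq0 : 0 < q := by linarith
  have hq100 : q ^ 100 = Q := qq_pow
  have hl1 : 1 ≤ Real.log Q := (log_ge_one (by omega : 3 ≤ Q)).le
  have hQN : Q ^ 2 ≤ N := (Nat.pow_le_pow_right (by omega) (by omega)).trans hN1
  have hQN' : Q ≤ N := (Nat.le_self_pow (by norm_num) Q).trans hQN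
  have hN4 : 4 ≤ N := by omega
  have hNr : (4 : ℝ) ≤ N := by exact_mod_cast hN4
  have hNp : (0 : ℝ) < N := by linarith
  have hQNr : (Q : ℝ) ^ 2 ≤ N := by exact_mod_cast hQN
  set P := PiA (zs 𝒜) with hP
  have hP1 : 1 ≤ P := one_le_PiA _
  -- the logarithm
  set W : ℝ := Real.log ((2 * D + 1) * N) with hW
  have hXle : ((2 * (D : ℝ) + 1) * N) ≤ (Q : ℝ) ^ (B - 1) := by exact_mod_cast hN2
  have hB2 : 2 ≤ B := by omega
  have hWB : W ≤ B * Real.log Q := by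
    have h1 := Real.log_le_log (by positivity) hXle
    rw [Real.log_pow] at h1
    refine h1.trans ?_
    apply mul_le_mul_of_nonneg_right _ (by linarith)
    exact_mod_cast (by omega : B - 1 ≤ B)
  have hW1 : 1 ≤ W := by
    refine hl1.trans (Real.log_le_log hQ0 ?_)
    have h1 : (Q : ℝ) ≤ N := by exact_mod_cast hQN'
    exact h1.trans (le_mul_of_one_le_left hNp.le (by linarith))
  have hW0 : 0 ≤ W := by linarith
  have hWpow : ∀ k : ℕ, k ≤ 2 * f + 2 → C0 * W ^ k ≤ q := by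
    intro k hk
    refine le_trans ?_ p6
    apply mul_le_mul_of_nonneg_left _ (by positivity)
    calc W ^ k ≤ W ^ (2 * f + 2) := pow_le_pow_right₀ hW1 hk
      _ ≤ _ := pow_le_pow_left₀ hW0 hWB _
  have hf1 : (1 : ℝ) ≤ f := by exact_mod_cast hf
  obtain ⟨hC0f, hC0g, hC0h⟩ := c0_bounds hf1 hD1 hε hε1 hC0d
  -- the set of shifts is not empty
  have hScard : (N : ℝ) / q ^ 2 ≤ S.card := by
    rw [div_le_iff₀ (by positivity)]
    exact hcon
  have hSpos : (0 : ℝ) < S.card := lt_of_lt_of_le (by positivity) hScard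
  have hqS : q ≤ S.card := by
    refine le_trans ?_ hScard
    rw [le_div_iff₀ (by positivity)]
    calc q * q ^ 2 = q ^ 3 := by ring
      _ ≤ q ^ 100 := pow_le_pow_right₀ hq1 (by norm_num)
      _ = Q := hq100
      _ ≤ N := by exact_mod_cast hQN'
  have hSc : (f : ℝ) ^ 2 * W ^ (2 * f) ≤ S.card :=
    (mul_le_mul_of_nonneg_right hC0f (by positivity)).trans ((hWpow (2 * f) (by omega)).trans hqS)
  -- the length
  set X : ℕ := N + D * N with hX
  have hXr : (X : ℝ) = (D + 1) * N := by rw [hX]; push_cast; ring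
  have hX0 : (0 : ℝ) < X := by rw [hXr]; positivity
  have hlogX : Real.log ((D + 1) * N : ℕ) ≤ W := by
    rw [hW]
    apply Real.log_le_log (by positivity)
    push_cast
    exact mul_le_mul_of_nonneg_right (by linarith) hNp.le
  -- the periodic weight
  set s : ℕ := (Mw w - 1) * h0 with hs
  have hsum : ∀ h ∈ S, Mw w ∣ s + h := by
    intro h hh
    have h1 := hcl h hh
    have h2 : s + h ≡ s + h0 [MOD Mw w] := h1.add_left s
    have h3 : s + h0 = Mw w * h0 := by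
      rw [hs]
      have h4 := Mw_pos w
      obtain ⟨m, hm⟩ : ∃ m, Mw w = m + 1 := ⟨Mw w - 1, by omega⟩
      rw [hm]
      simp only [Nat.add_sub_cancel]
      ring
    rw [h3] at h2
    exact (Nat.modEq_zero_iff_dvd).1 (h2.trans ((Nat.modEq_zero_iff_dvd).2 (dvd_mul_right _ _)))
  have hals : ∀ h ∈ S, ∀ n : ℕ, al w 𝒜 s (n + h) = al w 𝒜 0 n := by
    intro h hh n
    rw [al_shift]
    have h1 : n + h + s = n + (s + h) := by ring
    rw [h1]
    obtain ⟨k, hk⟩ := hsum h hh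
    rw [hk, ← al_per w 𝒜 0 (n + Mw w * k), Nat.add_mul_mod_self_left, al_per]
  have hcong : ∀ h ∈ S, ∀ h' ∈ S, ∀ p ∈ pz w, (p : ℤ) ∣ (h : ℤ) - h' := by
    intro h hh h' hh' p hp
    have h1 : h' ≡ h [MOD Mw w] := (hcl h' hh').trans (hcl h hh).symm
    have h2 : h' ≡ h [MOD p] := h1.of_dvd (dvd_Mw hp)
    exact (Nat.modEq_iff_dvd).1 h2
  set f' : ℕ → ℂ := fun m => li m * al w 𝒜 s m with hf'
  set g' : ℕ → ℂ := fun n => g n * al w 𝒜 0 n with hg'
  have hf'1 : ∀ n, ‖f' n‖ ≤ 1 := by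
    intro n
    rw [hf']
    simp only
    rw [norm_mul]
    exact mul_le_one₀ (li_LF.bd n) (norm_nonneg _) (al_bd _ _ _ _)
  set W' : ℝ := Real.log ((D + 1) * N : ℕ) with hW'
  have hW'0 : 0 ≤ W' := Real.log_natCast_nonneg _
  have hwW' : (w : ℝ) ≤ W' := by
    refine p2.trans (Real.log_le_log hQ0 ?_)
    exact_mod_cast hQN'.trans (Nat.le_mul_of_pos_left N (by omega))
  have hsqN : q ≤ √(N : ℝ) := by
    apply Real.le_sqrt_of_sq_le
    calc q ^ 2 ≤ q ^ 100 := pow_le_pow_right₀ hq1 (by norm_num)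
      _ = Q := hq100
      _ ≤ N := by exact_mod_cast hQN'
  have hs0 : 0 ≤ √(N : ℝ) := Real.sqrt_nonneg _
  have herr : 4 * f * (D + 1) * (W' ^ (f + 1) * √(N : ℝ)) ≤ ε / 2 * N := by
    have h1 : 8 * f * (D + 1) / ε * W ^ (f + 1) ≤ √(N : ℝ) :=
      (mul_le_mul_of_nonneg_right hC0h (by positivity)).trans ((hWpow (f + 1) (by omega)).trans hsqN)
    have h2 : W' ^ (f + 1) ≤ W ^ (f + 1) := pow_le_pow_left₀ hW'0 hlogX _
    have h3 : 8 * f * (D + 1) * W ^ (f + 1) ≤ ε * √(N : ℝ) := by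
      have h4 := mul_le_mul_of_nonneg_left h1 hε.le
      refine le_trans (le_of_eq ?_) h4
      field_simp
    calc 4 * f * (D + 1) * (W' ^ (f + 1) * √(N : ℝ)) ≤ 4 * f * (D + 1) * (W ^ (f + 1) * √(N : ℝ)) := by gcongr
      _ = (8 * f * (D + 1) * W ^ (f + 1)) * √(N : ℝ) / 2 := by ring
      _ ≤ (ε * √(N : ℝ)) * √(N : ℝ) / 2 := by gcongr
      _ = ε / 2 * N := by rw [mul_assoc, Real.mul_self_sqrt hNp.le]; ring
  have hbig' : ∀ h ∈ S, ε / 2 * P * N ≤ ‖∑ n ∈ Icc 1 N, g' n * f' (n + h)‖ := by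
    intro h hh
    have h1 := sieve_part (w := w) h𝒜 hsz (by omega : 3 ≤ N) hW' hwW' hg
      (G := fun n => li (n + h)) (fun n => li_LF.bd _)
    have h2 := hbig h hh
    have h3 : ∑ n ∈ Icc 1 N, (g n * al w 𝒜 0 n) * (li (n + h) * al w 𝒜 0 n) = ∑ n ∈ Icc 1 N, g' n * f' (n + h) := by
      apply sum_congr rfl
      intro n _
      rw [hf', hg']
      simp only
      rw [hals h hh n]
    rw [← h3]
    have h4 : ε / 2 * N ≤ ε / 2 * P * N := by
      rw [mul_assoc]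
      exact mul_le_mul_of_nonneg_left (le_mul_of_one_le_left hNp.le hP1) (by linarith)
    linarith
  -- the mean of the weight
  obtain ⟨h1S, hh1S⟩ : ∃ h, h ∈ S := by
    by_contra hc
    push Not at hc
    have : S = ∅ := eq_empty_of_forall_notMem hc
    rw [this] at hSpos
    simp at hSpos
  have hρM : 1 / (Mw w : ℝ) ≤ rho w 𝒜 := by
    have h1 : (0 : ℝ) < ‖∑ n ∈ Icc 1 N, g' n * f' (n + h1S)‖ := lt_of_lt_of_le (by positivity) (hbig' h1S hh1S)
    obtain ⟨n, _, hn⟩ := exists_ne_zero_of_sum_ne_zero (norm_pos_iff.1 h1)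
    apply rho_ge (n := n)
    intro h2
    apply hn
    rw [hg']
    simp only
    rw [h2, mul_zero, zero_mul]
  set ρ := rho w 𝒜 with hρ
  have hMpos : (0 : ℝ) < Mw w := by exact_mod_cast Mw_pos w
  have hρ0 : 0 < ρ := lt_of_lt_of_le (by positivity) hρM
  have hρ1 : ρ ≤ 1 := rho_le_one w 𝒜
  have hρd : ρ ≤ 2 * dens (zs 𝒜) w := hdens w (by omega) 𝒜 h𝒜
  -- the correlations
  have hA2 := A2_bound (f := f) (D := D) (N := N) (w := w) (C := C) (ρ := ρ) (W := W) h𝒜 hsz hS (by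
      intro t ht htw hdis
      refine hpair N w (by omega) (by omega) (p5.trans hQN') ?_ (zs 𝒜) (by rw [card_zs]; exact h𝒜) ?_ t ht htw hdis
        ρ hρ0.le hρ1 hρd
      · refine le_trans ?_ p4
        have h1 : Real.log (4 * D * N) ≤ (B + 1) * Real.log Q := by
          have h2 : (4 * (D : ℝ) * N) ≤ (Q : ℝ) ^ (B + 1) := by
            calc (4 * (D : ℝ) * N) ≤ Q * ((2 * (D : ℝ) + 1) * N) := by
                  have h3 : (4 : ℝ) * (D * N) ≤ Q * (D * N) := mul_le_mul_of_nonneg_right hQr (by positivity)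
                  have h4 : (Q : ℝ) * (D * N) ≤ Q * ((2 * (D : ℝ) + 1) * N) := by
                    apply mul_le_mul_of_nonneg_left _ hQ0.le
                    exact mul_le_mul_of_nonneg_right (by linarith) hNp.le
                  linarith
              _ ≤ Q * (Q : ℝ) ^ (B - 1) := mul_le_mul_of_nonneg_left hXle hQ0.le
              _ = (Q : ℝ) ^ B := by
                  rw [← pow_succ']
                  congr 1
                  omega
              _ ≤ (Q : ℝ) ^ (B + 1) := pow_le_pow_right₀ (by linarith) (by omega)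
          have h3 := Real.log_le_log (by positivity) h2
          rw [Real.log_pow] at h3
          push_cast at h3
          exact h3
        linarith
      · intro u hu
        obtain ⟨a, ha, rfl⟩ := mem_zs.1 hu
        rw [abs_of_nonneg (Int.natCast_nonneg a)]
        exact_mod_cast hsz a ha)
    hcong hρ0 hρ1 hC0.le (by omega) hW1 le_rfl hSc
  rw [← hP] at hA2
  -- the frequencies
  set J : ℕ := ⌊q ^ 5⌋₊ with hJ
  have hJle : (J : ℝ) ≤ q ^ 5 := Nat.floor_le (by positivity)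
  have hq2D : 2 * ((D : ℝ) + 1) ≤ q := by
    have h1 := hWpow 0 (by omega)
    rw [pow_zero, mul_one] at h1
    refine le_trans ?_ h1
    refine le_trans ?_ hC0g
    rw [le_div_iff₀ hε]
    have : 2 * ((D : ℝ) + 1) * ε ≤ 2 * (D + 1) := mul_le_of_le_one_right (by positivity) hε1
    linarith
  have hJge : q ^ 5 / 2 ≤ J := by
    have h1 : q ^ 5 < J + 1 := Nat.lt_floor_add_one _
    have h2 : q ≤ q ^ 5 := le_self_pow₀ hq1 (by norm_num)
    linarith
  have hJc : ((N + D * N : ℕ) : ℝ) ≤ J * (1 / q) ^ 2 * S.card := by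
    rw [← hX, hXr]
    have h1 : (q ^ 5 / 2) * (1 / q) ^ 2 * (N / q ^ 2) ≤ J * (1 / q) ^ 2 * S.card := by gcongr
    refine le_trans ?_ h1
    have h2 : (q ^ 5 / 2) * (1 / q) ^ 2 * (N / q ^ 2) = q / 2 * N := by field_simp
    rw [h2]
    apply mul_le_mul_of_nonneg_right _ hNp.le
    linarith
  have hXA : Q ^ (A + 1) ≤ X := hN1.trans (by omega)
  have hXB : X ≤ Q ^ (B - 1) := by
    refine le_trans ?_ hN2
    rw [hX]
    exact len_aux'
  have hfin := corrW (f := f') (g := g') hf'1 (N := N) (H := D * N) (by omega) (E := S) hS (b₀ := ε / 2 * P * N)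
    (by positivity) hbig' (fun n => ∏ u ∈ zs 𝒜, Lz (n + u)) (fun n => prod_nonneg fun _ _ => Lz_nonneg _) (by
      intro n hn
      rw [hg']
      simp only
      have hprod : ∏ t ∈ zs 𝒜, Lz ((n : ℤ) + t) = ∏ a ∈ 𝒜, Lz (n + a) := by
        unfold zs
        rw [prod_map]
        rfl
      rw [norm_mul, hprod]
      calc ‖g n‖ * ‖al w 𝒜 0 n‖ ≤ ‖g n‖ * 1 := mul_le_mul_of_nonneg_left (al_bd _ _ _ _) (norm_nonneg _)
        _ ≤ _ := by rw [mul_one]; exact hg n hn)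
    (J := J) (A₁ := 4 * κ * ρ * (X : ℝ) ^ 2) (A₂ := (S.card : ℝ) ^ 2 * ((C + 1) * N * P ^ 2) / ρ)
    (A₃ := N * W ^ (2 * f)) (τ := 1 / q) (by positivity) (by positivity) (by
      have h1 : ∀ n ∈ Icc 1 N, ‖g' n‖ ^ 2 ≤ W ^ (2 * f) := by
        intro n hn
        have h2 : ‖g' n‖ ≤ W ^ f := by
          rw [hg']
          simp only
          rw [norm_mul]
          calc ‖g n‖ * ‖al w 𝒜 0 n‖ ≤ ‖g n‖ * 1 := mul_le_mul_of_nonneg_left (al_bd _ _ _ _) (norm_nonneg _)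
            _ ≤ ∏ a ∈ 𝒜, Lz (n + a) := by rw [mul_one]; exact hg n hn
            _ ≤ ∏ a ∈ 𝒜, W := by
                apply prod_le_prod (fun u _ => Lz_nonneg _)
                intro a ha
                rw [mem_Icc] at hn
                apply Lz_le (one_le_mul_of_one_le_of_one_le (by linarith) (by linarith))
                have h3 : n + a ≤ (2 * D + 1) * N := len_aux hn.2 (hsz a ha)
                exact_mod_cast h3
            _ = W ^ 𝒜.card := by rw [prod_const]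
            _ ≤ W ^ f := pow_le_pow_right₀ hW1 h𝒜
        calc ‖g' n‖ ^ 2 ≤ (W ^ f) ^ 2 := pow_le_pow_left₀ (norm_nonneg _) h2 2
          _ = W ^ (2 * f) := by rw [← pow_mul]; congr 1; ring
      refine (sum_le_sum h1).trans ?_
      rw [sum_const, nsmul_eq_mul]
      simp) (by
      intro Kf hKf hKc
      exact hen' X hXA hXB (Mw w) (Mw_pos w) p3 ρ (al w 𝒜 s) (al_Al w 𝒜 s) hρM Kf hKf
        ((Nat.cast_le.2 hKc).trans hJle)) hA2 hJc
  rw [← hX] at hfin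
  -- the contradiction
  refine final_contra hε hC0 hD1 hκ hρ0 hNp hXr hSpos hP1 (pow_nonneg hW0 f) hq0
    ((mul_le_mul_of_nonneg_right hC0g (pow_nonneg hW0 f)).trans (hWpow f (by omega))) ?_
  have e1 : (W ^ f) ^ 2 = W ^ (2 * f) := by rw [← pow_mul, mul_comm]
  rw [e1]
  exact hfin

end Pool.Agent.E8helper68.PJ
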