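import Pool.Agent.H49.G.R_seed8.Y842.JC.Sieve2

set_option autoImplicit false

/-!
# Upper bound sieve for the second moment, relative to the residues modulo the small primes
-/

namespace Pool.Agent.E8helper68.PJ
open Finset
open Pool.Agent.H373R2.T7 (pz mem_pz Vz nuB PerB sys_fund Vz_pos Vz_le_one)
open Pool.Agent.Y842.JC (rem rem_insert loc_le Lz Lz_nonneg Lz_le bad bad_nonneg bad_sum prod_mono_one Vz_up log_small)

/-- the density of the integers `n` with `p ∤ n + t` for all `p ≤ w` and `t ∈ T` -/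
noncomputable def dens (T : Finset ℤ) (w : ℕ) : ℝ := ∏ p ∈ pz w, (1 - ((rem 0 T p).card : ℝ) / p)

/-- the product over the differences -/
noncomputable def PiA (T : Finset ℤ) : ℝ :=
  ∏ q ∈ T.offDiag, ∏ p ∈ (q.1 - q.2).natAbs.primeFactors, (1 + 2 / (p : ℝ))

lemma one_le_prodZ {ι : Type*} (s : Finset ι) {f : ι → ℝ} (h : ∀ i ∈ s, 1 ≤ f i) : 1 ≤ ∏ i ∈ s, f i := by
  classical
  induction s using Finset.induction_on with
  | empty => simp
  | insert a s ha ih =>
    rw [prod_insert ha]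
    have h1 := h a (mem_insert_self _ _)
    have h2 := ih fun i hi => h i (mem_insert_of_mem hi)
    exact one_le_mul_of_one_le_of_one_le h1 h2

lemma one_le_PiA (T : Finset ℤ) : 1 ≤ PiA T := by
  unfold PiA
  apply one_le_prodZ
  intro q _
  apply one_le_prodZ
  intro p _
  have : (0 : ℝ) ≤ 2 / p := by positivity
  linarith

lemma rem_card_le (x : ℤ) (T : Finset ℤ) (p : ℕ) : (rem x T p).card ≤ p := by
  unfold rem
  exact (card_filter_le _ _).trans (by simp)

lemma rem_card_le' (x : ℤ) {p : ℕ} (hp : p.Prime) (T : Finset ℤ) : (rem x T p).card ≤ T.card := by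
  classical
  induction T using Finset.induction_on with
  | empty =>
    have : rem x ∅ p = ∅ := by
      unfold rem
      apply filter_false_of_mem
      rintro r _ ⟨t, ht, _⟩
      simp at ht
    rw [this]
    simp
  | insert t0 T ht0 ih =>
    obtain ⟨r0, h1, _, _⟩ := rem_insert x T t0 p hp
    rw [h1, card_insert_of_notMem ht0]
    have := card_insert_le r0 (rem x T p)
    omega

lemma fac_nonneg (T : Finset ℤ) {p : ℕ} (hp : 0 < p) : 0 ≤ 1 - ((rem 0 T p).card : ℝ) / p := by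
  have hp0 : (0 : ℝ) < p := by exact_mod_cast hp
  have h3 : ((rem 0 T p).card : ℝ) / p ≤ 1 := by
    rw [div_le_one hp0]
    exact_mod_cast rem_card_le 0 T p
  linarith

lemma dens_nonneg (T : Finset ℤ) (w : ℕ) : 0 ≤ dens T w :=
  prod_nonneg fun p hp => fac_nonneg T (mem_pz.1 hp).2.pos

open Classical in
lemma count_dens (c : ℕ) (hc : 1 ≤ c) : ∃ K x0 : ℕ, 1 ≤ K ∧ ∀ x y : ℕ, x0 ≤ y → y ^ K ≤ x →
    ∀ T : Finset ℤ, T.card ≤ c → ∀ X : ℕ,
    (((Icc 1 X).filter (fun n : ℕ => ∀ p ∈ pz y, ¬ ∃ t ∈ T, (p : ℤ) ∣ n + t)).card : ℝ) ≤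
      2 * (X * dens T y) + √(x : ℝ) := by
  obtain ⟨K, x0, hK, h⟩ := sys_fund c hc 1 one_pos
  refine ⟨K, x0, hK, fun x y hy hyx T hT X => ?_⟩
  have hnu : ∀ p, nuB (fun p n => ∃ t ∈ T, (p : ℤ) ∣ 0 + n + t) p = (rem 0 T p).card := by
    intro p
    unfold nuB rem
    apply congrArg
    ext r
    simp only [mem_filter]
  have hper : PerB (fun p n => ∃ t ∈ T, (p : ℤ) ∣ 0 + n + t) c := by
    constructor
    · intro p n
      apply exists_congr
      intro t
      apply and_congr_right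
      intro _
      have h1 : (n : ℤ) = ((n % p : ℕ) : ℤ) + (p : ℤ) * ((n / p : ℕ) : ℤ) := by
        exact_mod_cast (Nat.mod_add_div n p).symm
      have e : 0 + (n : ℤ) + t = (0 + ((n % p : ℕ) : ℤ) + t) + (p : ℤ) * ((n / p : ℕ) : ℤ) := by
        linarith [h1]
      rw [e]
      exact Int.dvd_add_left (Dvd.intro _ rfl)
    · intro p hp
      rw [hnu]
      exact (rem_card_le' 0 hp T).trans hT
  have h1 := (abs_le.1 (h x y hy hyx _ hper X)).2
  simp only [hnu] at h1
  have h2 : (((Icc 1 X).filter (fun n : ℕ => ∀ p ∈ pz y, ¬ ∃ t ∈ T, (p : ℤ) ∣ n + t)).card : ℝ) =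
      (((Icc 1 X).filter (fun n : ℕ => ∀ p ∈ pz y, ¬ ∃ t ∈ T, (p : ℤ) ∣ 0 + n + t)).card : ℝ) := by
    simp only [zero_add]
  rw [h2]
  unfold dens
  have h3 := sub_le_iff_le_add.1 h1
  refine le_trans (le_of_eq ?_) (h3.trans (le_of_eq (by ring)))
  apply congrArg
  apply congrArg
  ext n
  simp only [mem_filter]

/-- the mean of the periodic indicator -/
lemma rho_le (c : ℕ) (hc : 1 ≤ c) : ∃ x0 : ℕ, ∀ w : ℕ, x0 ≤ w → ∀ T : Finset ℤ, T.card ≤ c → ∀ (M : ℕ) (ρ : ℝ), 0 < M →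
    (∀ k : ℕ, ρ * (M * k) ≤
      (((Icc 1 (M * k)).filter (fun n : ℕ => ∀ p ∈ pz w, ¬ ∃ t ∈ T, (p : ℤ) ∣ n + t)).card : ℝ)) →
    ρ ≤ 2 * dens T w := by
  classical
  obtain ⟨K, x0, hK, h⟩ := count_dens c hc
  refine ⟨x0, fun w hw T hT M ρ hM hρ => ?_⟩
  have hMr : (0 : ℝ) < M := by exact_mod_cast hM
  apply le_of_forall_pos_le_add
  intro ε hε
  obtain ⟨k, hk⟩ := exists_nat_ge (√((w ^ K : ℕ) : ℝ) / ε)
  have h1 := h (w ^ K) w hw le_rfl T hT (M * (k + 1))
  have h2 := hρ (k + 1)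
  have h3 := h2.trans (le_trans (le_of_eq (by
    apply congrArg
    apply congrArg
    ext n
    simp only [mem_filter])) h1)
  push_cast at h3 hk
  rw [div_le_iff₀ hε] at hk
  have hk0 : (0 : ℝ) < (k : ℝ) + 1 := by positivity
  have h1M : (1 : ℝ) ≤ M := by exact_mod_cast hM
  have h4 : ρ * (M * (k + 1)) ≤ (2 * dens T w + ε) * (M * (k + 1)) := by
    have h5 : √((w : ℝ) ^ K) ≤ ε * (M * (k + 1)) := by
      calc √((w : ℝ) ^ K) ≤ k * ε := hk
        _ ≤ (k + 1) * ε := by nlinarith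
        _ ≤ M * ((k + 1) * ε) := le_mul_of_one_le_left (by positivity) h1M
        _ = _ := by ring
    linarith
  exact le_of_mul_le_mul_right h4 (by positivity)

/-- local factors -/
lemma loc_fac (T : Finset ℤ) {p : ℕ} (hp : p.Prime) : 1 - ((rem 0 T p).card : ℝ) / p ≤
    (1 - 1 / (p : ℝ)) ^ T.card * ∏ q ∈ T.offDiag, (if (p : ℤ) ∣ q.1 - q.2 then 1 + 2 / (p : ℝ) else 1) := by
  have hp2 : (2 : ℝ) ≤ p := by exact_mod_cast hp.two_le
  refine le_trans ?_ (loc_le 0 p hp T)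
  have h2 := one_add_mul_le_pow (a := -(1 / (p : ℝ))) (by
    have : 1 / (p : ℝ) ≤ 1 := by rw [div_le_one (by linarith)]; linarith
    linarith) (rem 0 T p).card
  have e1 : 1 + ((rem 0 T p).card : ℝ) * -(1 / (p : ℝ)) = 1 - ((rem 0 T p).card : ℝ) / p := by ring
  rw [e1] at h2
  have e2 : (1 + -(1 / (p : ℝ))) = 1 - 1 / (p : ℝ) := by ring
  rwa [e2] at h2

lemma gp_ge_one (p : ℕ) (d : ℤ) : (1 : ℝ) ≤ if (p : ℤ) ∣ d then 1 + 2 / (p : ℝ) else 1 := by
  split_ifs
  · have : (0 : ℝ) ≤ 2 / (p : ℝ) := by positivity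
    linarith
  · exact le_rfl

lemma gp_prod (S : Finset ℕ) (hS : ∀ p ∈ S, p.Prime) (d : ℤ) (hd : d ≠ 0) :
    ∏ p ∈ S, (if (p : ℤ) ∣ d then 1 + 2 / (p : ℝ) else 1) ≤ ∏ p ∈ d.natAbs.primeFactors, (1 + 2 / (p : ℝ)) := by
  classical
  rw [← prod_filter]
  apply prod_mono_one
  · intro p hp
    rw [mem_filter] at hp
    rw [Nat.mem_primeFactors]
    exact ⟨hS p hp.1, Int.natCast_dvd.1 hp.2, Int.natAbs_ne_zero.2 hd⟩
  · intro p
    have : (0 : ℝ) ≤ 2 / (p : ℝ) := by positivity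
    linarith

lemma dens_up (T : Finset ℤ) (w : ℕ) : dens T w ≤ Vz w ^ T.card * PiA T := by
  classical
  unfold dens
  refine (prod_le_prod (fun p hp => fac_nonneg T (mem_pz.1 hp).2.pos) fun p hp => loc_fac T (mem_pz.1 hp).2).trans ?_
  rw [prod_mul_distrib, prod_pow]
  apply mul_le_mul_of_nonneg_left _ (pow_nonneg (Vz_pos w).le _)
  rw [prod_comm]
  unfold PiA
  apply prod_le_prod
  · intro q _
    exact prod_nonneg fun p _ => zero_le_one.trans (gp_ge_one p _)
  · intro q hq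
    rw [mem_offDiag] at hq
    exact gp_prod _ (fun p hp => (mem_pz.1 hp).2) _ (sub_ne_zero.2 hq.2.2)

/-- the large prime factors of an integer -/
lemma big_fac {w y : ℕ} (hw : 3 ≤ w) {d : ℤ} (hd : d ≠ 0) (hdw : 2 * Real.log d.natAbs ≤ w * Real.log w) :
    ∏ p ∈ (pz y).filter (fun p => w < p), (if (p : ℤ) ∣ d then 1 + 2 / (p : ℝ) else 1) ≤ Real.exp 1 := by
  classical
  set S := ((pz y).filter (fun p => w < p)).filter (fun p : ℕ => (p : ℤ) ∣ d) with hS
  rw [← prod_filter, ← hS]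
  have hwr : (3 : ℝ) ≤ w := by exact_mod_cast hw
  have hlw : 0 < Real.log w := Real.log_pos (by linarith)
  have hSp : ∀ p ∈ S, p.Prime ∧ w < p ∧ p ∣ d.natAbs := by
    intro p hp
    rw [hS, mem_filter, mem_filter, mem_pz] at hp
    exact ⟨hp.1.1.2, hp.1.2, Int.natCast_dvd.1 hp.2⟩
  have hprod : ∏ p ∈ S, p ∣ d.natAbs := by
    apply Finset.prod_primes_dvd
    · intro p hp
      exact (hSp p hp).1.prime
    · intro p hp
      exact (hSp p hp).2.2
  have hd0 : 0 < d.natAbs := Int.natAbs_pos.2 hd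
  have hcard : (S.card : ℝ) * Real.log w ≤ Real.log d.natAbs := by
    have h1 : ((w : ℝ)) ^ S.card ≤ d.natAbs := by
      have h2 : w ^ S.card ≤ ∏ p ∈ S, p := by
        rw [← prod_const]
        exact prod_le_prod' fun p hp => (hSp p hp).2.1.le
      exact_mod_cast h2.trans (Nat.le_of_dvd hd0 hprod)
    have h3 := Real.log_le_log (by positivity) h1
    rwa [Real.log_pow] at h3
  calc ∏ p ∈ S, (1 + 2 / (p : ℝ)) ≤ ∏ p ∈ S, Real.exp (2 / (p : ℝ)) := by
        apply prod_le_prod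
        · intro p _; positivity
        · intro p _
          have := Real.add_one_le_exp (2 / (p : ℝ))
          linarith
    _ = Real.exp (∑ p ∈ S, 2 / (p : ℝ)) := (Real.exp_sum _ _).symm
    _ ≤ Real.exp 1 := by
        apply Real.exp_le_exp.2
        have h1 : ∑ p ∈ S, 2 / (p : ℝ) ≤ ∑ p ∈ S, 2 / (w : ℝ) := by
          apply sum_le_sum
          intro p hp
          have h2 : (w : ℝ) ≤ p := by exact_mod_cast (hSp p hp).2.1.le
          exact div_le_div_of_nonneg_left (by norm_num) (by linarith) h2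
        refine h1.trans ?_
        rw [sum_const, nsmul_eq_mul, mul_div_assoc', div_le_one (by linarith)]
        have h2 : (S.card : ℝ) * 2 * Real.log w ≤ w * Real.log w := by linarith
        exact le_of_mul_le_mul_right h2 hlw

lemma rem_shift {T : Finset ℤ} {t : ℤ} {p : ℕ} (h : (p : ℤ) ∣ t) : rem 0 (T ∪ T.image (fun a => a + t)) p = rem 0 T p := by
  classical
  unfold rem
  apply filter_congr
  intro r _
  constructor
  · rintro ⟨u, hu, hd⟩
    rw [mem_union, mem_image] at hu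
    rcases hu with hu | ⟨a, ha, rfl⟩
    · exact ⟨u, hu, hd⟩
    · refine ⟨a, ha, ?_⟩
      have e : (0 : ℤ) + r + a = (0 + r + (a + t)) - t := by ring
      rw [e]
      exact dvd_sub hd h
  · rintro ⟨u, hu, hd⟩
    exact ⟨u, mem_union_left _ hu, hd⟩

/-- the density for the pair -/
lemma dens_pair {T : Finset ℤ} {t : ℤ} {w y : ℕ} (hw : 3 ≤ w) (hwy : w ≤ y) (ht : ∀ p ∈ pz w, (p : ℤ) ∣ t)
    (hdis : ∀ a ∈ T, ∀ a' ∈ T, a + t ≠ a')
    (hsize : ∀ u ∈ T ∪ T.image (fun a => a + t), ∀ v ∈ T ∪ T.image (fun a => a + t), u ≠ v →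
      2 * Real.log (u - v).natAbs ≤ w * Real.log w) :
    dens (T ∪ T.image (fun a => a + t)) y ≤
      dens T w * ((Vz y / Vz w) ^ (2 * T.card) * Real.exp 1 ^ ((2 * T.card) ^ 2)) := by
  classical
  set U := T ∪ T.image (fun a => a + t) with hU
  have hcard : U.card = 2 * T.card := by
    rw [hU, card_union_of_disjoint, card_image_of_injective]
    · ring
    · intro a b hab; simpa using hab
    · rw [disjoint_left]
      intro u hu hu'
      rw [mem_image] at hu'
      obtain ⟨a, ha, hau⟩ := hu'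
      exact hdis a ha u hu hau
  have hsplit : pz y = pz w ∪ (pz y).filter (fun p => w < p) := by
    ext p
    simp only [mem_union, mem_filter, mem_pz]
    constructor
    · rintro ⟨h1, h2⟩
      rcases le_or_gt p w with h3 | h3
      · exact Or.inl ⟨h3, h2⟩
      · exact Or.inr ⟨⟨h1, h2⟩, h3⟩
    · rintro (⟨h1, h2⟩ | ⟨⟨h1, h2⟩, _⟩)
      · exact ⟨h1.trans hwy, h2⟩
      · exact ⟨h1, h2⟩
  have hdisj : Disjoint (pz w) ((pz y).filter (fun p => w < p)) := by
    rw [disjoint_left]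
    intro p hp hp'
    rw [mem_pz] at hp
    rw [mem_filter] at hp'
    omega
  have hV : ∏ p ∈ (pz y).filter (fun p => w < p), (1 - 1 / (p : ℝ)) = Vz y / Vz w := by
    rw [eq_div_iff (Vz_pos w).ne']
    unfold Vz
    rw [mul_comm]
    conv_rhs => rw [hsplit, prod_union hdisj]
  unfold dens
  conv_lhs => rw [hsplit, prod_union hdisj]
  have h1 : ∏ p ∈ pz w, (1 - ((rem 0 U p).card : ℝ) / p) = ∏ p ∈ pz w, (1 - ((rem 0 T p).card : ℝ) / p) := by
    apply prod_congr rfl
    intro p hp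
    rw [hU, rem_shift (ht p hp)]
  rw [h1]
  apply mul_le_mul_of_nonneg_left _ (prod_nonneg fun p hp => fac_nonneg T (mem_pz.1 hp).2.pos)
  refine (prod_le_prod (fun p hp => fac_nonneg U (mem_pz.1 (mem_filter.1 hp).1).2.pos)
    fun p hp => loc_fac U (mem_pz.1 (mem_filter.1 hp).1).2).trans ?_
  rw [prod_mul_distrib, prod_pow, hV, hcard]
  apply mul_le_mul_of_nonneg_left _ (by
    have := Vz_pos y
    have := Vz_pos w
    positivity)
  rw [prod_comm]
  calc ∏ q ∈ U.offDiag, ∏ p ∈ (pz y).filter (fun p => w < p), (if (p : ℤ) ∣ q.1 - q.2 then 1 + 2 / (p : ℝ) else 1)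
      ≤ ∏ q ∈ U.offDiag, Real.exp 1 := by
        apply prod_le_prod
        · intro q _
          exact prod_nonneg fun p _ => zero_le_one.trans (gp_ge_one p _)
        · intro q hq
          rw [mem_offDiag] at hq
          exact big_fac hw (sub_ne_zero.2 hq.2.2) (hsize _ hq.1 _ hq.2.1 hq.2.2)
    _ = Real.exp 1 ^ U.offDiag.card := by rw [prod_const]
    _ ≤ Real.exp 1 ^ ((2 * T.card) ^ 2) := by
        apply pow_le_pow_right₀ (Real.one_le_exp (by norm_num))
        rw [offDiag_card, hcard]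
        have : 2 * T.card * (2 * T.card) = (2 * T.card) ^ 2 := by ring
        omega

end Pool.Agent.E8helper68.PJ
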