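import Pool.Agent.H49.G.R_pool_sql_team_seeded_b677cdb8.E8helper68.PJ.Siv

set_option autoImplicit false

/-!
# Upper bounds for the sums of products of the von Mangoldt function
-/

namespace Pool.Agent.E8helper68.PJ
open Finset
open Pool.Agent.H373R2.T7 (pz mem_pz Vz nuB PerB sys_fund Vz_pos Vz_le_one)
open Pool.Agent.Y842.JC (rem rem_insert loc_le Lz Lz_nonneg Lz_le bad bad_nonneg bad_sum prod_mono_one Vz_up log_small)

open Classical in
/-- from the von Mangoldt function to the sifted integers -/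
lemma lam_le {c : ℕ} (hc : 1 ≤ c) {X y : ℕ} (hX : 3 ≤ X) (S T : Finset ℤ) (hT : T.card ≤ c)
    (hS : ∀ n ∈ S, ∀ t ∈ T, n + t ≤ X) :
    ∑ n ∈ S, ∏ t ∈ T, Lz (n + t) ≤
      Real.log X ^ T.card * ((S.filter (fun n : ℤ => ∀ p ∈ pz y, ¬ ∃ t ∈ T, (p : ℤ) ∣ n + t)).card : ℝ) +
        Real.log X ^ c * (c * (2 * √(X : ℝ) * Real.log X + 2 * y)) := by
  set W : ℝ := Real.log X with hW
  have hX3 : (3 : ℝ) ≤ X := by exact_mod_cast hX
  have hW1 : 1 ≤ W := by
    rw [hW, Real.le_log_iff_exp_le (by linarith)]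
    have := Real.exp_one_lt_d9
    linarith
  have hW0 : 0 ≤ W := by linarith
  set G : Finset ℤ := S.filter (fun n : ℤ => ∀ p ∈ pz y, ¬ ∃ t ∈ T, (p : ℤ) ∣ n + t) with hG
  have hLW : ∀ n ∈ S, ∀ t ∈ T, Lz (n + t) ≤ W := by
    intro n hn t ht'
    apply Lz_le (by linarith)
    have := hS n hn t ht'
    exact_mod_cast this
  have hprod : ∀ n ∈ S, ∀ T' ⊆ T, ∏ t ∈ T', Lz (n + t) ≤ W ^ T'.card := by
    intro n hn T' hT'
    rw [← prod_const]
    exact prod_le_prod (fun t _ => Lz_nonneg _) (fun t ht' => hLW n hn t (hT' ht'))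
  have hgood : ∑ n ∈ G, ∏ t ∈ T, Lz (n + t) ≤ W ^ T.card * G.card := by
    have h1 : ∑ n ∈ G, ∏ t ∈ T, Lz (n + t) ≤ ∑ n ∈ G, W ^ T.card :=
      sum_le_sum fun n hn => hprod n (mem_filter.1 hn).1 T (Subset.refl _)
    rw [sum_const, nsmul_eq_mul] at h1
    linarith
  have hbad : ∀ n ∈ S, n ∉ G → ∏ t ∈ T, Lz (n + t) ≤ W ^ c * ∑ t ∈ T, bad y (n + t) := by
    intro n hn hnG
    have hS0 : 0 ≤ ∑ t ∈ T, bad y (n + t) := sum_nonneg fun t _ => bad_nonneg y _
    rw [hG, mem_filter] at hnG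
    push Not at hnG
    obtain ⟨p, hp, t0, ht0, hpt⟩ := hnG hn
    by_cases h0 : Lz (n + t0) = 0
    · rw [prod_eq_zero ht0 h0]
      positivity
    · have hb : bad y (n + t0) = Lz (n + t0) := by
        unfold bad
        rw [if_neg]
        rintro ⟨h1, h2⟩
        have hpos : 0 < (n + t0).toNat := h1.pos
        have h3 : (((n + t0).toNat : ℕ) : ℤ) = n + t0 := Int.toNat_of_nonneg (by omega)
        rw [← h3] at hpt
        have h4 : p ∣ (n + t0).toNat := by exact_mod_cast hpt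
        have h5 := (Nat.prime_dvd_prime_iff_eq (mem_pz.1 hp).2 h1).1 h4
        have h6 := (mem_pz.1 hp).1
        omega
      rw [← mul_prod_erase T _ ht0, ← hb]
      have h1 := hprod n hn (T.erase t0) (erase_subset _ _)
      have h2 : W ^ (T.erase t0).card ≤ W ^ c :=
        pow_le_pow_right₀ hW1 ((card_le_card (erase_subset _ _)).trans hT)
      have h3 : bad y (n + t0) ≤ ∑ t ∈ T, bad y (n + t) :=
        single_le_sum (f := fun t => bad y (n + t)) (fun t _ => bad_nonneg y _) ht0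
      rw [mul_comm]
      exact mul_le_mul (h1.trans h2) h3 (bad_nonneg _ _) (by positivity)
  have hsplit : ∑ n ∈ S, ∏ t ∈ T, Lz (n + t) ≤
      ∑ n ∈ G, ∏ t ∈ T, Lz (n + t) + ∑ n ∈ S, W ^ c * ∑ t ∈ T, bad y (n + t) := by
    rw [← sum_filter_add_sum_filter_not S (fun n => ∀ p ∈ pz y, ¬ ∃ t ∈ T, (p : ℤ) ∣ n + t)]
    apply add_le_add le_rfl
    have h1 : ∀ n ∈ S.filter (fun n => ¬ ∀ p ∈ pz y, ¬ ∃ t ∈ T, (p : ℤ) ∣ n + t),
        ∏ t ∈ T, Lz (n + t) ≤ W ^ c * ∑ t ∈ T, bad y (n + t) := by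
      intro n hn
      rw [mem_filter] at hn
      apply hbad n hn.1
      rw [hG, mem_filter]
      exact fun h => hn.2 h.2
    refine (sum_le_sum h1).trans ?_
    apply sum_le_sum_of_subset_of_nonneg (filter_subset _ _)
    intro n _ _
    exact mul_nonneg (by positivity) (sum_nonneg fun t _ => bad_nonneg y _)
  have hbadsum : ∑ n ∈ S, W ^ c * ∑ t ∈ T, bad y (n + t) ≤
      W ^ c * (c * (2 * √(X : ℝ) * W + 2 * y)) := by
    rw [← mul_sum, sum_comm]
    apply mul_le_mul_of_nonneg_left _ (by positivity)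
    have h1 : ∀ t ∈ T, ∑ n ∈ S, bad y (n + t) ≤ 2 * √(X : ℝ) * W + 2 * y := fun t ht' =>
      bad_sum y X (by omega) S t (fun n hn => hS n hn t ht')
    refine (sum_le_sum h1).trans ?_
    rw [sum_const, nsmul_eq_mul]
    apply mul_le_mul_of_nonneg_right _ (by positivity)
    exact_mod_cast hT
  linarith

/-- the sifting level -/
lemma level (K : ℕ) {N w : ℕ} (hw : 3 ≤ w) (hwN : w ^ (K + 2) ≤ N) : ∃ y : ℕ, w ≤ y ∧ y ^ (K + 2) ≤ N ∧
    Real.log N ≤ 2 * (K + 2) * Real.log y := by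
  classical
  set y := Nat.findGreatest (fun y => y ^ (K + 2) ≤ N) N with hy
  have hw' : w ≤ N := (Nat.le_self_pow (by omega) w).trans hwN
  have h1 : w ≤ y := Nat.le_findGreatest hw' hwN
  have h2 : y ^ (K + 2) ≤ N := Nat.findGreatest_spec (P := fun y => y ^ (K + 2) ≤ N) hw' hwN
  refine ⟨y, h1, h2, ?_⟩
  have h3 : N ≤ (y + 1) ^ (K + 2) := by
    by_contra hc
    push Not at hc
    have h4 : y + 1 ≤ N := (Nat.le_self_pow (by omega) _).trans hc.le
    have h5 := Nat.le_findGreatest (P := fun y => y ^ (K + 2) ≤ N) h4 hc.le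
    omega
  have hy3 : (3 : ℝ) ≤ y := by exact_mod_cast hw.trans h1
  have hN0 : (0 : ℝ) < N := by exact_mod_cast (by omega : 0 < N)
  have h4 : (N : ℝ) ≤ ((y : ℝ) ^ 2) ^ (K + 2) := by
    have h5 : (N : ℝ) ≤ ((y : ℝ) + 1) ^ (K + 2) := by exact_mod_cast h3
    refine h5.trans (pow_le_pow_left₀ (by linarith) ?_ _)
    nlinarith
  have h5 := Real.log_le_log hN0 h4
  rw [← pow_mul, Real.log_pow] at h5
  push_cast at h5
  linarith

/-- **the pair correlation of the product of von Mangoldt functions**, relative to the small primes -/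
theorem pair (f : ℕ) (hf : 1 ≤ f) (D : ℕ) (hD : 1 ≤ D) : ∃ C : ℝ, 1 ≤ C ∧ ∃ K w0 N0 : ℕ, ∀ N w : ℕ, N0 ≤ N → w0 ≤ w → w ^ K ≤ N →
    2 * Real.log (4 * D * N) ≤ w * Real.log w →
    ∀ 𝒜 : Finset ℤ, 𝒜.card ≤ f → (∀ a ∈ 𝒜, |a| ≤ D * N) → ∀ t : ℤ, |t| ≤ D * N → (∀ p ∈ pz w, (p : ℤ) ∣ t) →
    (∀ a ∈ 𝒜, ∀ a' ∈ 𝒜, a + t ≠ a') → ∀ ρ : ℝ, 0 ≤ ρ → ρ ≤ 1 → ρ ≤ 2 * dens 𝒜 w →
    ρ * ∑ n ∈ Ioc 0 (N : ℤ), ∏ u ∈ 𝒜 ∪ 𝒜.image (fun a => a + t), Lz (n + u) ≤ C * N * PiA 𝒜 ^ 2 := by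
  classical
  obtain ⟨K, x0, hK, hcount⟩ := count_dens (2 * f) (by omega)
  obtain ⟨CV, hCV, hV⟩ := Vz_up
  obtain ⟨N1, hN1⟩ := log_small (2 * f + 1) (20 * (f + 1) * (2 * D + 1) * (2 * D + 1) ^ (2 * f + 1))
  set A : ℝ := max 1 (CV * (8 * (2 * D + 1) * (K + 2))) with hA
  have hA1 : 1 ≤ A := le_max_left _ _
  refine ⟨4 * A ^ (2 * f) * Real.exp 1 ^ ((2 * f) ^ 2) + 1, ?_, K + 2, x0 + 3, N1 + 6, fun N w hN hw hwN hwlog 𝒜 h𝒜 hsz t htsz htw hdis ρ hρ0 hρ1 hρ => ?_⟩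
  · have : 0 ≤ 4 * A ^ (2 * f) * Real.exp 1 ^ ((2 * f) ^ 2) := by positivity
    linarith
  obtain ⟨y, hwy, hyN, hlogy⟩ := level K (by omega : 3 ≤ w) hwN
  have hN6 : (6 : ℝ) ≤ N := by exact_mod_cast (by omega : 6 ≤ N)
  have hN0 : (0 : ℝ) < N := by linarith
  have hD1 : (1 : ℝ) ≤ D := by exact_mod_cast hD
  set X : ℕ := (2 * D + 1) * N with hX
  have hXr : (X : ℝ) = (2 * D + 1) * N := by rw [hX]; push_cast; ring
  have hX3 : 3 ≤ X := by rw [hX]; nlinarith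
  set W : ℝ := Real.log X with hW
  have hl6 : 1 ≤ Real.log (6 * N) := by
    rw [Real.le_log_iff_exp_le (by positivity)]
    have := Real.exp_one_lt_d9
    linarith
  have hlogN : 1 ≤ Real.log N := by
    rw [Real.le_log_iff_exp_le hN0]
    have := Real.exp_one_lt_d9
    linarith
  have hlD : Real.log (2 * D + 1) ≤ 2 * D := by
    have := Real.log_le_sub_one_of_pos (by positivity : (0 : ℝ) < 2 * D + 1)
    linarith
  have hWeq : W = Real.log (2 * D + 1) + Real.log N := by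
    rw [hW, hXr, Real.log_mul (by positivity) hN0.ne']
  have hW6 : W ≤ (2 * D + 1) * Real.log (6 * N) := by
    rw [hWeq]
    have h1 : Real.log N ≤ Real.log (6 * N) := Real.log_le_log hN0 (by linarith)
    nlinarith
  have hWN : W ≤ (2 * D + 1) * Real.log N := by
    rw [hWeq]
    nlinarith
  have hW1 : 1 ≤ W := by
    rw [hWeq]
    have : 0 ≤ Real.log (2 * (D : ℝ) + 1) := Real.log_nonneg (by linarith)
    linarith
  have hW0 : 0 ≤ W := by linarith
  set U := 𝒜 ∪ 𝒜.image (fun a => a + t) with hU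
  have hUcard : U.card ≤ 2 * f := by
    refine (card_union_le _ _).trans ?_
    have h2 : (𝒜.image (fun a => a + t)).card ≤ 𝒜.card := card_image_le
    omega
  have hUcard' : U.card = 2 * 𝒜.card := by
    rw [hU, card_union_of_disjoint, card_image_of_injective]
    · ring
    · intro a b hab; simpa using hab
    · rw [disjoint_left]
      intro u hu hu'
      rw [mem_image] at hu'
      obtain ⟨a, ha, hau⟩ := hu'
      exact hdis a ha u hu hau
  have hUsz : ∀ u ∈ U, |u| ≤ 2 * D * N := by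
    intro u hu
    rw [hU, mem_union, mem_image] at hu
    rcases hu with hu | ⟨a, ha, rfl⟩
    · have := hsz u hu
      have h2 : (0 : ℤ) ≤ D * N := by positivity
      linarith
    · have h1 := hsz a ha
      have h2 := abs_add_le a t
      linarith
  have hlam := lam_le (c := 2 * f) (y := y) (by omega) hX3 (Ioc 0 (N : ℤ)) U hUcard (by
    intro n hn u hu
    rw [mem_Ioc] at hn
    have := (abs_le.1 (hUsz u hu)).2
    rw [hX]
    push_cast
    linarith [hn.2])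
  have hG : (((Ioc 0 (N : ℤ)).filter (fun n : ℤ => ∀ p ∈ pz y, ¬ ∃ t ∈ U, (p : ℤ) ∣ n + t)).card : ℝ) ≤
      2 * (N * dens U y) + √(N : ℝ) := by
    have h1 := hcount N y (by omega) ((Nat.pow_le_pow_right (by omega) (by omega)).trans hyN) U hUcard N
    refine le_trans ?_ h1
    apply Nat.cast_le.2
    apply card_le_card_of_injOn (fun n => n.toNat)
    · intro n hn
      rw [mem_coe, mem_filter, mem_Ioc] at hn
      rw [mem_coe, mem_filter, mem_Icc]
      refine ⟨by simp only; omega, fun p hp => ?_⟩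
      have h2 : ((n.toNat : ℕ) : ℤ) = n := Int.toNat_of_nonneg (by omega)
      simp only [h2]
      exact hn.2 p hp
    · intro n hn n' hn' h
      rw [mem_coe, mem_filter, mem_Ioc] at hn hn'
      simp only at h
      omega
  have hpair := dens_pair (T := 𝒜) (t := t) (y := y) (by omega : 3 ≤ w) hwy htw hdis (by
    intro u hu v hv huv
    refine le_trans ?_ hwlog
    have h1 : ((u - v).natAbs : ℝ) ≤ 4 * D * N := by
      have h2 := hUsz u hu
      have h3 := hUsz v hv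
      have h4 := abs_sub u v
      have h5 : |u - v| ≤ 4 * D * N := by linarith
      have h6 : (((u - v).natAbs : ℤ)) ≤ 4 * D * N := by rw [Int.natCast_natAbs]; exact h5
      exact_mod_cast h6
    have h2 : (0 : ℝ) < (u - v).natAbs := by
      exact_mod_cast Int.natAbs_pos.2 (sub_ne_zero.2 huv)
    have := Real.log_le_log h2 h1
    linarith)
  rw [← hU] at hpair
  have hVw := Vz_pos w
  have hVy := Vz_pos y
  set k := 𝒜.card with hk
  set De := dens 𝒜 w with hDe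
  have hDe0 : 0 ≤ De := dens_nonneg _ _
  set e := Real.exp 1 with he
  have he1 : 1 ≤ e := Real.one_le_exp (by norm_num)
  have hy3 : 3 ≤ y := by omega
  have hly0 : 0 < Real.log y := Real.log_pos (by exact_mod_cast (by omega : 1 < y))
  have hWV : W * Vz y ≤ A := by
    have h1 := hV y hy3
    have h2 : W * Vz y ≤ ((2 * D + 1) * Real.log N) * (CV / Real.log y) :=
      mul_le_mul hWN h1 hVy.le (by positivity)
    have h3 : ((2 * D + 1) * Real.log N) * (CV / Real.log y) ≤ CV * (8 * (2 * D + 1) * (K + 2)) := by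
      rw [← mul_div_assoc, div_le_iff₀ hly0]
      have h4 : Real.log N ≤ 8 * (K + 2) * Real.log y := by
        refine hlogy.trans ?_
        apply mul_le_mul_of_nonneg_right _ hly0.le
        have : (0 : ℝ) ≤ K := Nat.cast_nonneg K
        linarith
      calc (2 * D + 1) * Real.log N * CV ≤ (2 * D + 1) * (8 * (K + 2) * Real.log y) * CV := by gcongr
        _ = _ := by ring
    exact (h2.trans h3).trans (le_max_right _ _)
  -- main term
  have hDV : De ≤ Vz w ^ k * PiA 𝒜 := dens_up 𝒜 w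
  have hPi := one_le_PiA 𝒜
  have hmain : ρ * (W ^ U.card * (2 * (N * dens U y))) ≤ 4 * A ^ (2 * f) * e ^ ((2 * f) ^ 2) * N * PiA 𝒜 ^ 2 := by
    rw [hUcard']
    have h1 : W ^ (2 * k) * (2 * (N * dens U y)) ≤ 2 * N * (W * Vz y) ^ (2 * k) * e ^ ((2 * k) ^ 2) * (De / Vz w ^ (2 * k)) := by
      have h2 := mul_le_mul_of_nonneg_left hpair (by positivity : 0 ≤ W ^ (2 * k) * (2 * N))
      refine le_trans (le_of_eq (by ring)) (h2.trans (le_of_eq ?_))
      rw [mul_pow, div_pow]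
      ring
    have h2 : (W * Vz y) ^ (2 * k) ≤ A ^ (2 * f) :=
      (pow_le_pow_left₀ (by positivity) hWV _).trans (pow_le_pow_right₀ hA1 (by omega))
    have h3 : e ^ ((2 * k) ^ 2) ≤ e ^ ((2 * f) ^ 2) := pow_le_pow_right₀ he1 (Nat.pow_le_pow_left (by omega) 2)
    have h4 : 2 * N * (W * Vz y) ^ (2 * k) * e ^ ((2 * k) ^ 2) * (De / Vz w ^ (2 * k)) ≤
        2 * N * A ^ (2 * f) * e ^ ((2 * f) ^ 2) * (De / Vz w ^ (2 * k)) := by gcongr
    have h5 : ρ * (De / Vz w ^ (2 * k)) ≤ 2 * PiA 𝒜 ^ 2 := by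
      rw [← mul_div_assoc, div_le_iff₀ (by positivity)]
      have h6 : ρ * De ≤ 2 * De * De := mul_le_mul_of_nonneg_right hρ hDe0
      have h7 : De * De ≤ (Vz w ^ k * PiA 𝒜) * (Vz w ^ k * PiA 𝒜) := mul_le_mul hDV hDV hDe0 (by positivity)
      have h8 : (Vz w ^ k * PiA 𝒜) * (Vz w ^ k * PiA 𝒜) = PiA 𝒜 ^ 2 * Vz w ^ (2 * k) := by ring
      rw [h8] at h7
      linarith
    calc ρ * (W ^ (2 * k) * (2 * (N * dens U y))) ≤ ρ * (2 * N * A ^ (2 * f) * e ^ ((2 * f) ^ 2) * (De / Vz w ^ (2 * k))) :=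
          mul_le_mul_of_nonneg_left (h1.trans h4) hρ0
      _ = 2 * N * A ^ (2 * f) * e ^ ((2 * f) ^ 2) * (ρ * (De / Vz w ^ (2 * k))) := by ring
      _ ≤ 2 * N * A ^ (2 * f) * e ^ ((2 * f) ^ 2) * (2 * PiA 𝒜 ^ 2) := mul_le_mul_of_nonneg_left h5 (by positivity)
      _ = _ := by ring
  -- the error terms
  have hysq : (y : ℝ) ≤ √(N : ℝ) := by
    apply Real.le_sqrt_of_sq_le
    have h1 : y ^ 2 ≤ N := (Nat.pow_le_pow_right (by omega) (by omega)).trans hyN
    exact_mod_cast h1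
  have hXs : √(X : ℝ) ≤ (2 * D + 1) * √(N : ℝ) := by
    rw [hXr, Real.sqrt_mul (by positivity)]
    apply mul_le_mul_of_nonneg_right _ (Real.sqrt_nonneg _)
    rw [Real.sqrt_le_left (by positivity)]
    nlinarith
  have hs0 : 0 ≤ √(N : ℝ) := Real.sqrt_nonneg _
  have herr : W ^ U.card * √(N : ℝ) + W ^ (2 * f) * ((2 * f : ℕ) * (2 * √(X : ℝ) * W + 2 * y)) ≤ N := by
    have h1 : W ^ U.card ≤ W ^ (2 * f + 1) := pow_le_pow_right₀ hW1 (by omega)
    have h2 : W ^ (2 * f) ≤ W ^ (2 * f + 1) := pow_le_pow_right₀ hW1 (by omega)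
    have hP0 : 0 ≤ W ^ (2 * f + 1) * √(N : ℝ) := by positivity
    have hf0 : (0 : ℝ) ≤ f := Nat.cast_nonneg f
    have h3 : W ^ (2 * f) * ((2 * f : ℕ) * (2 * √(X : ℝ) * W + 2 * y)) ≤ 8 * f * (2 * D + 1) * (W ^ (2 * f + 1) * √(N : ℝ)) := by
      have h4 : 2 * √(X : ℝ) * W + 2 * y ≤ 4 * ((2 * D + 1) * √(N : ℝ)) * W := by
        have h5 : √(X : ℝ) * W ≤ (2 * D + 1) * √(N : ℝ) * W := mul_le_mul_of_nonneg_right hXs hW0
        have h6 : √(N : ℝ) ≤ (2 * D + 1) * √(N : ℝ) := le_mul_of_one_le_left hs0 (by linarith)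
        have h7 : (2 * (D : ℝ) + 1) * √(N : ℝ) ≤ (2 * D + 1) * √(N : ℝ) * W :=
          le_mul_of_one_le_right (by positivity) hW1
        linarith
      calc W ^ (2 * f) * ((2 * f : ℕ) * (2 * √(X : ℝ) * W + 2 * y)) ≤
          W ^ (2 * f) * ((2 * f : ℕ) * (4 * ((2 * D + 1) * √(N : ℝ)) * W)) := by gcongr
        _ = _ := by push_cast; ring
    have h4 : W ^ U.card * √(N : ℝ) ≤ W ^ (2 * f + 1) * √(N : ℝ) := mul_le_mul_of_nonneg_right h1 hs0
    have h5 : W ^ (2 * f + 1) ≤ (2 * D + 1) ^ (2 * f + 1) * Real.log (6 * N) ^ (2 * f + 1) := by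
      rw [← mul_pow]
      exact pow_le_pow_left₀ hW0 hW6 _
    have h6 := hN1 N (by omega)
    have h7 : (1 + 8 * f * (2 * (D : ℝ) + 1)) ≤ 20 * (f + 1) * (2 * D + 1) := by nlinarith
    have h8 : (1 + 8 * f * (2 * (D : ℝ) + 1)) * W ^ (2 * f + 1) ≤ (N : ℝ) ^ (1 / 4 : ℝ) := by
      refine le_trans ?_ h6
      calc (1 + 8 * f * (2 * (D : ℝ) + 1)) * W ^ (2 * f + 1) ≤
          20 * (f + 1) * (2 * D + 1) * ((2 * D + 1) ^ (2 * f + 1) * Real.log (6 * N) ^ (2 * f + 1)) :=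
            mul_le_mul h7 h5 (by positivity) (by positivity)
        _ = _ := by ring
    have h9 := mul_le_mul_of_nonneg_right h8 hs0
    have h10 : (N : ℝ) ^ (1 / 4 : ℝ) * √(N : ℝ) ≤ N := by
      rw [Real.sqrt_eq_rpow, ← Real.rpow_add hN0]
      calc (N : ℝ) ^ ((1 / 4 : ℝ) + 1 / 2) ≤ (N : ℝ) ^ (1 : ℝ) :=
            Real.rpow_le_rpow_of_exponent_le (by linarith) (by norm_num)
        _ = N := Real.rpow_one _
    linarith
  have hWU : 0 ≤ W ^ U.card := by positivity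
  have h1 : ∑ n ∈ Ioc 0 (N : ℤ), ∏ u ∈ U, Lz (n + u) ≤
      W ^ U.card * (2 * (N * dens U y)) + N := by
    have h2 := mul_le_mul_of_nonneg_left hG hWU
    linarith
  have h2 := mul_le_mul_of_nonneg_left h1 hρ0
  have h3 : ρ * N ≤ N * PiA 𝒜 ^ 2 := by
    have h4 : 1 ≤ PiA 𝒜 ^ 2 := one_le_pow₀ hPi
    calc ρ * N ≤ 1 * N := mul_le_mul_of_nonneg_right hρ1 hN0.le
      _ = N * 1 := by ring
      _ ≤ _ := mul_le_mul_of_nonneg_left h4 hN0.le
  linarith

end Pool.Agent.E8helper68.PJ
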