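import Pool.Agent.H49.G.R_seed8.TH823.PS.TK

set_option autoImplicit false

/-!
# The Turan-Kubilius inequality in residue classes and with periodic weights
-/

open Finset

namespace Pool.Agent.E8helper68.PJ

open Pool.Agent.TH823.PS

lemma cls_count {r : ℕ} (hr : 0 < r) (X v : ℕ) :
    |(((Ioc 0 X).filter (fun x => x ≡ v [MOD r])).card : ℝ) - X / r| ≤ 1 := by
  have h := Nat.Ioc_filter_modEq_card 0 X hr v
  have hr0 : (0 : ℚ) < r := by exact_mod_cast hr
  set A : ℤ := ⌊((X : ℚ) - v) / r⌋ with hA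
  set B : ℤ := ⌊(((0 : ℕ) : ℚ) - v) / r⌋ with hB
  have h1 : B ≤ A := by
    apply Int.floor_le_floor
    apply div_le_div_of_nonneg_right _ hr0.le
    have : (0 : ℚ) ≤ X := Nat.cast_nonneg X
    push_cast
    linarith
  have h2 : (((Ioc 0 X).filter (fun x => x ≡ v [MOD r])).card : ℤ) = A - B := by
    rw [h, max_eq_left (by linarith)]
  have a1 : ((A : ℤ) : ℚ) ≤ ((X : ℚ) - v) / r := Int.floor_le _
  have a2 : ((X : ℚ) - v) / r < A + 1 := Int.lt_floor_add_one _
  have b1 : ((B : ℤ) : ℚ) ≤ (((0 : ℕ) : ℚ) - v) / r := Int.floor_le _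
  have b2 : (((0 : ℕ) : ℚ) - v) / r < B + 1 := Int.lt_floor_add_one _
  have h3 : ((((Ioc 0 X).filter (fun x => x ≡ v [MOD r])).card : ℤ) : ℚ) = A - B := by
    rw [h2]; push_cast; ring
  have e : ((X : ℚ) - v) / r = (X : ℚ) / r + (((0 : ℕ) : ℚ) - v) / r := by
    push_cast; ring
  have h4 : |((((Ioc 0 X).filter (fun x => x ≡ v [MOD r])).card : ℚ)) - X / r| ≤ 1 := by
    push_cast at h3
    rw [h3, abs_le]
    constructor <;> linarith
  have h5 : (((|((((Ioc 0 X).filter (fun x => x ≡ v [MOD r])).card : ℚ)) - X / r| : ℚ)) : ℝ) ≤ ((1 : ℚ) : ℝ) := by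
    exact_mod_cast h4
  push_cast at h5
  exact h5

/-- the number of the multiples of `d` in a residue class -/
lemma cls_dvd {M d : ℕ} (hM : 0 < M) (hd : 0 < d) (hc : M.Coprime d) (X c : ℕ) :
    |(((Icc 1 X).filter (fun x => x ≡ c [MOD M] ∧ d ∣ x)).card : ℝ) - X / (d * M)| ≤ 1 := by
  obtain ⟨v, hv1, hv2⟩ := Nat.chineseRemainder hc c 0
  have h := cls_count (Nat.mul_pos hM hd) X v
  have e : (Icc 1 X).filter (fun x => x ≡ c [MOD M] ∧ d ∣ x) =
      (Ioc 0 X).filter (fun x => x ≡ v [MOD (M * d)]) := by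
    ext x
    simp only [mem_filter, mem_Icc, mem_Ioc]
    rw [← Nat.modEq_and_modEq_iff_modEq_mul hc]
    constructor
    · rintro ⟨h1, h2, h3⟩
      exact ⟨by omega, h2.trans hv1.symm, ((Nat.modEq_zero_iff_dvd).2 h3).trans hv2.symm⟩
    · rintro ⟨h1, h2, h3⟩
      exact ⟨by omega, h2.trans hv1, (Nat.modEq_zero_iff_dvd).1 (h3.trans hv2)⟩
  rw [e]
  push_cast at h
  rw [mul_comm (d : ℝ) M]
  exact h

/-- Turan-Kubilius in a residue class -/
lemma turan_cls {P : Finset ℕ} (hP : ∀ p ∈ P, p.Prime) {M : ℕ} (hM : 0 < M) (hPM : ∀ p ∈ P, M.Coprime p) (X c : ℕ) :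
    ∑ k ∈ (Icc 1 X).filter (fun k => k ≡ c [MOD M]), (om P k - WP P) ^ 2 ≤
      (X : ℝ) / M * WP P + 4 * (P.card : ℝ) ^ 2 := by
  classical
  set S := (Icc 1 X).filter (fun k => k ≡ c [MOD M]) with hS
  set W := WP P with hW
  have hW0 : 0 ≤ W := WP_nonneg P
  have hMr : (0 : ℝ) < M := by exact_mod_cast hM
  set Nd : ℕ → ℝ := fun d => (((Icc 1 X).filter (fun x => x ≡ c [MOD M] ∧ d ∣ x)).card : ℝ) with hNd
  have hNd1 : ∀ d : ℕ, 0 < d → M.Coprime d → |Nd d - X / (d * M)| ≤ 1 := fun d h1 h2 => cls_dvd hM h1 h2 X c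
  have hWc : W ≤ P.card := by
    rw [hW]
    unfold WP
    calc ∑ p ∈ P, (1 : ℝ) / p ≤ ∑ p ∈ P, (1 : ℝ) := by
          apply sum_le_sum
          intro p hp
          have : (1 : ℝ) ≤ p := by exact_mod_cast (hP p hp).one_lt.le
          rw [div_le_one (by linarith)]
          exact this
      _ = P.card := by simp
  have e0 : ∑ k ∈ S, (1 : ℝ) = Nd 1 := by
    rw [hNd]
    simp only [sum_const, nsmul_eq_mul, mul_one, hS, one_dvd, and_true]
  have e1 : ∑ k ∈ S, om P k = ∑ p ∈ P, Nd p := by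
    unfold om
    rw [sum_comm]
    apply sum_congr rfl
    intro p _
    rw [← sum_filter, sum_const, nsmul_eq_mul, mul_one, hS, filter_filter]
  have e2 : ∑ k ∈ S, om P k ^ 2 = ∑ p ∈ P, ∑ q ∈ P, (if p = q then Nd p else Nd (p * q)) := by
    have e3 : ∀ k : ℕ, om P k ^ 2 = ∑ p ∈ P, ∑ q ∈ P, (if p = q then (if p ∣ k then (1 : ℝ) else 0) else
        (if p * q ∣ k then (1 : ℝ) else 0)) := by
      intro k
      unfold om
      rw [sq, sum_mul_sum]
      apply sum_congr rfl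
      intro p hp
      apply sum_congr rfl
      intro q hq
      by_cases hpq : p = q
      · subst hpq
        simp only [if_true]
        split_ifs <;> norm_num
      · rw [if_neg hpq]
        have hcop : p.Coprime q := (Nat.coprime_primes (hP p hp) (hP q hq)).2 hpq
        by_cases h1 : p ∣ k <;> by_cases h2 : q ∣ k
        · rw [if_pos h1, if_pos h2, if_pos (hcop.mul_dvd_of_dvd_of_dvd h1 h2), one_mul]
        · rw [if_neg h2, if_neg (fun h => h2 ((dvd_mul_left q p).trans h)), mul_zero]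
        · rw [if_neg h1, if_neg (fun h => h1 ((dvd_mul_right p q).trans h)), zero_mul]
        · rw [if_neg h1, if_neg (fun h => h1 ((dvd_mul_right p q).trans h)), zero_mul]
    simp only [e3]
    rw [sum_comm]
    apply sum_congr rfl
    intro p _
    rw [sum_comm]
    apply sum_congr rfl
    intro q _
    split_ifs
    · rw [← sum_filter, sum_const, nsmul_eq_mul, mul_one, hS, filter_filter]
    · rw [← sum_filter, sum_const, nsmul_eq_mul, mul_one, hS, filter_filter]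
  have hmain : ∑ k ∈ S, (om P k - W) ^ 2 = (∑ k ∈ S, om P k ^ 2) - 2 * W * (∑ k ∈ S, om P k) + W ^ 2 * ∑ k ∈ S, (1 : ℝ) := by
    rw [mul_sum, mul_sum, ← sum_sub_distrib, ← sum_add_distrib]
    apply sum_congr rfl
    intro k _
    ring
  rw [hmain, e0, e1, e2]
  -- the second moment
  have b2 : ∑ p ∈ P, ∑ q ∈ P, (if p = q then Nd p else Nd (p * q)) ≤ (X : ℝ) / M * (W ^ 2 + W) + (P.card : ℝ) ^ 2 := by
    have h1 : ∀ p ∈ P, ∀ q ∈ P, (if p = q then Nd p else Nd (p * q)) ≤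
        (X : ℝ) / M * (1 / p * (1 / q) + (if p = q then 1 / (p : ℝ) else 0)) + 1 := by
      intro p hp q hq
      have hp0 : (0 : ℝ) < p := by exact_mod_cast (hP p hp).pos
      have hq0 : (0 : ℝ) < q := by exact_mod_cast (hP q hq).pos
      split_ifs with h
      · have h2 := (abs_le.1 (hNd1 p (hP p hp).pos (hPM p hp))).2
        have e : (X : ℝ) / (p * M) = X / M * (1 / p) := by field_simp
        have h3 : 0 ≤ (X : ℝ) / M * (1 / p * (1 / q)) := by positivity
        rw [e] at h2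
        linarith
      · have h2 := (abs_le.1 (hNd1 (p * q) (Nat.mul_pos (hP p hp).pos (hP q hq).pos)
          (Nat.Coprime.mul_right (hPM p hp) (hPM q hq)))).2
        have e : (X : ℝ) / (((p * q : ℕ) : ℝ) * M) = X / M * (1 / p * (1 / q)) := by push_cast; field_simp
        rw [e] at h2
        linarith
    refine (sum_le_sum fun p hp => sum_le_sum fun q hq => h1 p hp q hq).trans (le_of_eq ?_)
    have e3 : ∑ p ∈ P, ∑ q ∈ P, ((X : ℝ) / M * (1 / p * (1 / q) + (if p = q then 1 / (p : ℝ) else 0)) + 1) =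
        (X : ℝ) / M * (∑ p ∈ P, ∑ q ∈ P, (1 / (p : ℝ)) * (1 / q)) +
        (X : ℝ) / M * (∑ p ∈ P, ∑ q ∈ P, (if p = q then 1 / (p : ℝ) else 0)) + ∑ p ∈ P, ∑ q ∈ P, (1 : ℝ) := by
      simp only [mul_sum]
      rw [← sum_add_distrib, ← sum_add_distrib]
      apply sum_congr rfl
      intro p _
      rw [← sum_add_distrib, ← sum_add_distrib]
      apply sum_congr rfl
      intro q _
      ring
    rw [e3, ← sum_mul_sum]
    have e4 : ∑ p ∈ P, ∑ q ∈ P, (if p = q then 1 / (p : ℝ) else 0) = W := by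
      rw [hW]
      unfold WP
      apply sum_congr rfl
      intro p hp
      rw [sum_ite_eq, if_pos hp]
    rw [e4]
    simp only [sum_const, nsmul_eq_mul, mul_one]
    rw [hW]
    unfold WP
    ring
  have b1 : (X : ℝ) / M * W - P.card ≤ ∑ p ∈ P, Nd p := by
    have h1 : ∀ p ∈ P, (X : ℝ) / M * (1 / p) - 1 ≤ Nd p := by
      intro p hp
      have hp0 : (0 : ℝ) < p := by exact_mod_cast (hP p hp).pos
      have h2 := (abs_le.1 (hNd1 p (hP p hp).pos (hPM p hp))).1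
      have e : (X : ℝ) / (p * M) = X / M * (1 / p) := by field_simp
      rw [e] at h2
      linarith
    refine le_trans (le_of_eq ?_) (sum_le_sum h1)
    rw [sum_sub_distrib, ← mul_sum]
    simp only [sum_const, nsmul_eq_mul, mul_one]
    rw [hW]
    unfold WP
    ring
  have b0 : Nd 1 ≤ (X : ℝ) / M + 1 := by
    have h2 := (abs_le.1 (hNd1 1 one_pos (Nat.coprime_one_right M))).2
    push_cast at h2
    rw [one_mul] at h2
    linarith
  have hc0 : (0 : ℝ) ≤ P.card := Nat.cast_nonneg _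
  have h3 := mul_le_mul_of_nonneg_left b1 (by positivity : 0 ≤ 2 * W)
  have h4 := mul_le_mul_of_nonneg_left b0 (by positivity : 0 ≤ W ^ 2)
  have h5 : W * P.card ≤ (P.card : ℝ) ^ 2 := by rw [sq]; exact mul_le_mul_of_nonneg_right hWc hc0
  have h6 : W ^ 2 ≤ (P.card : ℝ) ^ 2 := pow_le_pow_left₀ hW0 hWc 2
  nlinarith

/-- a periodic weight with mean `ρ` -/
structure Wt (M : ℕ) (ρ : ℝ) (β : ℕ → ℝ) : Prop where
  nn : ∀ n, 0 ≤ β n
  per : ∀ n, β (n % M) = β n
  mean : ∑ c ∈ range M, β c = ρ * M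

lemma Wt.rho_nonneg {M : ℕ} {ρ : ℝ} {β : ℕ → ℝ} (h : Wt M ρ β) (hM : 0 < M) : 0 ≤ ρ := by
  have h1 : 0 ≤ ρ * M := by rw [← h.mean]; exact sum_nonneg fun _ _ => h.nn _
  have hMr : (0 : ℝ) < M := by exact_mod_cast hM
  by_contra hc
  push Not at hc
  have := mul_neg_of_neg_of_pos hc hMr
  linarith

lemma wt_split {M : ℕ} {ρ : ℝ} {β : ℕ → ℝ} (h : Wt M ρ β) (hM : 0 < M) (S : Finset ℕ) (G : ℕ → ℝ) :
    ∑ k ∈ S, β k * G k = ∑ c ∈ range M, β c * ∑ k ∈ S.filter (fun k => k ≡ c [MOD M]), G k := by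
  have hmaps : ∀ k ∈ S, k % M ∈ range M := fun k _ => mem_range.2 (Nat.mod_lt _ hM)
  rw [← sum_fiberwise_of_maps_to hmaps]
  apply sum_congr rfl
  intro c hc
  rw [mul_sum]
  have e : S.filter (fun k => k % M = c) = S.filter (fun k => k ≡ c [MOD M]) := by
    apply filter_congr
    intro k _
    unfold Nat.ModEq
    rw [Nat.mod_eq_of_lt (mem_range.1 hc)]
  rw [e]
  apply sum_congr rfl
  intro k hk
  rw [mem_filter] at hk
  have h1 : k % M = c % M := hk.2
  rw [← h.per k, h1, h.per c]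

/-- Turan-Kubilius with a periodic weight -/
lemma turan_wt {M : ℕ} {ρ : ℝ} {β : ℕ → ℝ} (h : Wt M ρ β) (hM : 0 < M) {P : Finset ℕ} (hP : ∀ p ∈ P, p.Prime)
    (hPM : ∀ p ∈ P, M.Coprime p) {X : ℕ} (hX : M * P.card ^ 2 ≤ X) :
    ∑ k ∈ Icc 1 X, β k * (om P k - WP P) ^ 2 ≤ ρ * ((WP P + 4) * X) := by
  rw [wt_split h hM]
  have h1 : ∀ c ∈ range M, β c * ∑ k ∈ (Icc 1 X).filter (fun k => k ≡ c [MOD M]), (om P k - WP P) ^ 2 ≤
      β c * ((X : ℝ) / M * WP P + 4 * (P.card : ℝ) ^ 2) := fun c _ =>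
    mul_le_mul_of_nonneg_left (turan_cls hP hM hPM X c) (h.nn c)
  refine (sum_le_sum h1).trans ?_
  rw [← sum_mul, h.mean]
  have hMr : (0 : ℝ) < M := by exact_mod_cast hM
  have hρ := h.rho_nonneg hM
  have h2 : (M : ℝ) * (P.card : ℝ) ^ 2 ≤ X := by exact_mod_cast hX
  have e : ρ * M * ((X : ℝ) / M * WP P + 4 * (P.card : ℝ) ^ 2) = ρ * (X * WP P + 4 * (M * (P.card : ℝ) ^ 2)) := by
    field_simp
  rw [e]
  apply mul_le_mul_of_nonneg_left _ hρ
  linarith

/-- the sum of a periodic weight -/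
lemma sum_wt {M : ℕ} {ρ : ℝ} {β : ℕ → ℝ} (h : Wt M ρ β) (hM : 0 < M) (X : ℕ) :
    ∑ k ∈ Icc 1 X, β k ≤ ρ * (X + M) := by
  have h0 := wt_split h hM (Icc 1 X) (fun _ => 1)
  simp only [mul_one] at h0
  rw [h0]
  have h1 : ∀ c ∈ range M, β c * ∑ k ∈ (Icc 1 X).filter (fun k => k ≡ c [MOD M]), (1 : ℝ) ≤
      β c * ((X : ℝ) / M + 1) := by
    intro c _
    apply mul_le_mul_of_nonneg_left _ (h.nn c)
    have h2 := (abs_le.1 (cls_dvd hM one_pos (Nat.coprime_one_right M) X c)).2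
    simp only [one_dvd, and_true, Nat.cast_one, one_mul] at h2
    rw [sum_const, nsmul_eq_mul, mul_one]
    linarith
  refine (sum_le_sum h1).trans ?_
  rw [← sum_mul, h.mean]
  have hMr : (0 : ℝ) < M := by exact_mod_cast hM
  have e : ρ * M * ((X : ℝ) / M + 1) = ρ * (X + M) := by field_simp
  rw [e]

end Pool.Agent.E8helper68.PJ
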